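import Mathlib

/-!
# Project TC (helper675), MP_5f7262_nt: almost prime congruent numbers in residue classes

For all natural numbers `B`, `r`, `s` the number `B * FF B r s` is the area of a rational right
triangle (up to squares).  A weighted linear sieve gives many `(r, s)` for which `FF B r s` is
squarefree with at most three prime factors.  Statements of the parts.
-/

set_option autoImplicit false

namespace Pool.Agent.Y675.TC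

open Finset

/-- the quartic form `s⁴ + 6 B r² s² + B² r⁴` -/
def FF (B : ℕ) (r s : ℤ) : ℤ := s ^ 4 + 6 * B * r ^ 2 * s ^ 2 + (B : ℤ) ^ 2 * r ^ 4

/-- the roots of `FF B 1 t` modulo `p` -/
def Rt (B p : ℕ) : Finset ℕ := (range p).filter (fun t : ℕ => (p : ℤ) ∣ FF B 1 t)

/-- the density of the pairs with `p ∣ FF B r s` -/
noncomputable def gd (B p : ℕ) : ℝ :=
  (1 + ((Rt B p).card : ℝ) * ((p : ℝ) - 1)) / (p : ℝ) ^ 2

/-- the additive character -/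
noncomputable def ee (x : ℝ) : ℂ := Complex.exp (2 * Real.pi * x * Complex.I)

/-- the complete exponential sum over the zeros modulo `q` -/
noncomputable def AA (B q : ℕ) (J K : ℤ) : ℂ :=
  ∑ x ∈ range q, ∑ y ∈ range q,
    if (q : ℤ) ∣ FF B x y then ee (((J * x + K * y : ℤ) : ℝ) / (q : ℝ)) else 0

/-- EXP: evaluation at `0` and bound of the complete exponential sums. -/
def S_EXP : Prop := ∀ B q : ℕ, Squarefree q →
  (AA B q 0 0 = (((q : ℝ) ^ 2 * ∏ p ∈ q.primeFactors, gd B p : ℝ) : ℂ)) ∧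
  ∀ J K : ℤ, ‖AA B q J K‖ ≤ 7 ^ q.primeFactors.card * (Nat.gcd q (FF B K J).natAbs : ℝ)

/-- the quadruples -/
def Om (M : ℕ) : Finset (ℕ × ℕ × ℕ × ℕ) := range M ×ˢ range M ×ˢ range M ×ˢ range M

/-- the values of the form -/
def vv (B Q : ℕ) (i : ℕ × ℕ × ℕ × ℕ) : ℕ :=
  (FF B ((Q * (i.1 + i.2.1) : ℕ) : ℤ) ((1 + Q * (i.2.2.1 + i.2.2.2) : ℕ) : ℤ)).natAbs

/-- LEV: level of distribution. -/
def S_LEV : Prop := ∀ B Q : ℕ, 1 ≤ B → 1 ≤ Q → ∀ ε : ℝ, 0 < ε → ∃ C : ℝ, 0 < C ∧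
  ∀ (M : ℕ) (D : ℝ), 1 ≤ M → 1 ≤ D →
    ∑ q ∈ (Icc 1 ⌊D⌋₊).filter (fun q : ℕ => Squarefree q ∧ q.Coprime Q),
      |(((Om M).filter (fun i => q ∣ vv B Q i)).card : ℝ) -
        (M : ℝ) ^ 4 * ∏ p ∈ q.primeFactors, gd B p| ≤
      C * D ^ ε * ((M : ℝ) ^ 3 + (M : ℝ) ^ 2 * D)

open Classical in
/-- NSQ: few values without small prime factors are not squarefree. -/
def S_NSQ : Prop := ∀ B : ℕ, 1 ≤ B → ∀ ε : ℝ, 0 < ε → ∃ C : ℝ, 0 < C ∧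
  ∀ (Y : ℕ) (z : ℝ), 1 ≤ Y → 1 ≤ z → z ≤ Y →
    ((((Icc 1 Y) ×ˢ (Icc 1 Y)).filter (fun i : ℕ × ℕ =>
      (∀ p : ℕ, p.Prime → (p : ℤ) ∣ FF B i.1 i.2 → z ≤ p) ∧ ¬ Squarefree (FF B i.1 i.2))).card : ℝ) ≤
      C * (Y : ℝ) ^ (2 + ε) * z ^ (-(1 / 2 : ℝ))

/-- MUL: few pairs have the same value. -/
def S_MUL : Prop := ∀ (B : ℕ) (v : ℤ), 1 ≤ B → Squarefree v → ∀ S : Finset (ℕ × ℕ),
  (∀ i ∈ S, 1 ≤ i.1 ∧ 1 ≤ i.2 ∧ FF B i.1 i.2 = v) → S.card ≤ 4 ^ v.natAbs.primeFactors.card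

/-- MRS: Mertens' theorem for the densities, `tt = log p / log N`. -/
def S_MRS : Prop := ∀ B : ℕ, 1 ≤ B → ∀ ε η : ℝ, 0 < ε → 0 < η → ∃ N₀ : ℕ, ∀ N : ℕ, N₀ ≤ N →
  ∀ a b : ℝ, ε ≤ a → a ≤ b → b ≤ 1 →
    |∑ p ∈ (Icc 1 N).filter (fun p : ℕ => p.Prime ∧ a ≤ Real.log p / Real.log N ∧
        Real.log p / Real.log N < b), gd B p - Real.log (b / a)| ≤ η

/-- PRD: lower bound of the product of the `1 - gd B p`. -/
def S_PRD : Prop := ∀ B : ℕ, 1 ≤ B → ∃ c : ℝ, 0 < c ∧ ∀ N z : ℕ, 3 ≤ N → 5 ≤ z →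
  c / Real.log N ≤ ∏ p ∈ (Ioc z N).filter Nat.Prime, (1 - gd B p)

end Pool.Agent.Y675.TC
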