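import Pool.Agent.Y660.RP.SV5

/-!
Project TC (helper675): the weighted linear sieve of `Pool.Agent.Y660.RP.core` for densities which
satisfy Mertens' theorem with dimension one only on average.
-/

set_option autoImplicit false

namespace Pool.Agent.Y675.TC

open Finset Pool.Agent.W23.DC Pool.Agent.Y660.RP Filter

open Classical in
theorem fund4 : ∃ C0 : ℕ, 1 ≤ C0 ∧ ∀ (b J z : ℕ) (P : Finset ℕ) (g : ℕ → ℝ), C0 ≤ b → C0 ≤ z →
    (∀ p ∈ P, p.Prime ∧ z < p ∧ p ≤ 2 ^ 2 ^ J) →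
    (∀ p ∈ P, 0 ≤ g p ∧ g p ≤ 4 / ((p : ℝ) - 1)) →
    ∀ (ι : Type) (Ω : Finset ι) (v : ι → ℕ) (A : ℝ) (e : ℕ), 0 ≤ A → 0 ≤ gp g e →
    (∀ p ∈ P, ¬ p ∣ e) →
    |(((Ω.filter (fun i => ∀ p ∈ P, ¬ p ∣ v i)).filter (fun i => e ∣ v i)).card : ℝ) -
      A * gp g e * ∏ p ∈ P, (1 - g p)| ≤
      (1 / 2 : ℝ) ^ b * (A * gp g e * ∏ p ∈ P, (1 - g p)) +
        ((J : ℝ) + 2) * ∑ T ∈ P.powerset.filter
          (fun T : Finset ℕ => ∏ p ∈ T, p ≤ (2 ^ 2 ^ J) ^ (C0 * b)),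
          Rr Ω v g A (e * ∏ p ∈ T, p) := by
  obtain ⟨C0, h1, h⟩ := Pool.Agent.H20R2.fLem 4
  refine ⟨C0, h1, ?_⟩
  intro b J z P g hb hz hP hg ι Ω v A e hA hge hPe
  have key := h b J z P g hb hz hP (by simpa using hg) ((Ω.filter (fun i => e ∣ v i)).image v)
    (fun m => (((Ω.filter (fun i => e ∣ v i)).filter (fun i => v i = m)).card : ℝ))
    (fun p m => p ∣ m) (A * gp g e) (fun T => Rr Ω v g A (e * ∏ p ∈ T, p))
    (fun m _ => Nat.cast_nonneg _) (by positivity) (by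
      intro T hT _
      rw [sum_fib]
      unfold Rr
      have hc := cop_prod (fun p hp => (hP p hp).1) hT hPe
      have hTp : ∀ p ∈ T, p.Prime := fun p hp => (hP p (hT hp)).1
      rw [gp_mul g hc, gp_prod g T hTp, ← mul_assoc]
      apply le_of_eq
      congr 3
      rw [Finset.filter_filter]
      congr 1
      ext i
      simp only [mem_filter]
      rw [mul_dvd_iff_and hc, prod_dvd hTp])
  rw [sum_fib] at key
  rw [Finset.filter_filter] at key ⊢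
  convert key using 6
  exact and_comm

open Classical in
/-- **CORE**: the weighted linear sieve. -/
theorem core4 : ∃ (A0 : ℝ) (C0 : ℕ), 0 < A0 ∧ ∀ z : ℕ, C0 ≤ z → ∀ η : ℝ, 0 < η →
  ∃ ε₁ : ℝ, 0 < ε₁ ∧ ε₁ ≤ 1 / 8 ∧ ∃ ηM : ℝ, 0 < ηM ∧ ∃ N0 : ℕ, 2 ≤ N0 ∧ ∀ N : ℕ, N0 ≤ N →
  (z : ℝ) < (N : ℝ) ^ ε₁ ∧
  ∀ (ι : Type) (Ω : Finset ι) (v : ι → ℕ) (g : ℕ → ℝ) (A : ℝ), 0 ≤ A →
  (∀ p : ℕ, p.Prime → z < p → 0 ≤ g p ∧ g p ≤ 4 / ((p : ℝ) - 1)) →
  Mer (pr N ε₁ (1 / 4)) (tt N) g ε₁ (1 / 4) ηM →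
  ∑ q ∈ pr N (1 / 4) (97 / 100), g q ≤ Real.log (97 / 25) + ηM →
  ε₁ * (A * ∏ p ∈ P1 N z ε₁, (1 - g p)) *
      (A0 * (50 / 49 * (Real.log (73 / 25) - 13 / 25 * Real.log (97 / 25))) - η) -
      Real.log N * ∑ q ∈ Lv' z ((N : ℝ) ^ (99 / 100 : ℝ)), Rr Ω v g A q ≤
    ∑ i ∈ Ω.filter (fun i => ∀ p ∈ P1 N z ε₁, ¬ p ∣ v i), II N ε₁ (v i) *
      (1 - ∑ q ∈ pr N (1 / 4) (97 / 100), cq N q * (if q ∣ v i then 1 else 0)) := by
  obtain ⟨A0, F, f, hS⟩ := Pool.Agent.W366.DC.SFX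
  obtain ⟨C0, hC1, hfund⟩ := fund4
  have hA0 := hS.pos
  refine ⟨A0, max C0 5, hA0, ?_⟩
  intro z hz' η hη
  have hz : C0 ≤ z := (le_max_left _ _).trans hz'
  have hz5 : 5 ≤ z := (le_max_right _ _).trans hz'
  obtain ⟨b, hb, hb2⟩ := exb C0 hC1 η hη
  have hb1 : 1 ≤ b := hC1.trans hb
  have hC0r : (1 : ℝ) ≤ C0 := by exact_mod_cast hC1
  have hbr : (1 : ℝ) ≤ b := by exact_mod_cast hb1
  have hCb : (1 : ℝ) ≤ C0 * b := by nlinarith
  obtain ⟨ε, hεd⟩ : ∃ ε : ℝ, ε = 1 / (200 * C0 * b) := ⟨_, rfl⟩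
  rw [← hεd] at hb2
  have hε : 0 < ε := by rw [hεd]; positivity
  have hε200 : ε ≤ 1 / 200 := by
    rw [hεd]
    apply one_div_le_one_div_of_le (by norm_num)
    nlinarith
  have hlev : 2 * ε * ((C0 * b : ℕ) : ℝ) ≤ 1 / 100 := by
    rw [hεd]
    push_cast
    have : 2 * (1 / (200 * (C0 : ℝ) * b)) * (C0 * b) = 1 / 100 := by
      field_simp
      norm_num
    rw [this]
  obtain ⟨β, hβd⟩ : ∃ β : ℝ, β = (1 / 2 : ℝ) ^ b := ⟨_, rfl⟩
  have hβ0 : 0 ≤ β := by rw [hβd]; positivity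
  have hβε : β * (1 / ε) ≤ ε * (η / 16) := by
    rw [mul_one_div, div_le_iff₀ hε, hβd]
    calc (1 / 2 : ℝ) ^ b ≤ ε ^ 2 * (η / 16) := hb2
      _ = ε * (η / 16) * ε := by ring
  refine ⟨ε, hε, by linarith, ?_⟩
  obtain ⟨ηM, hηM0, HM⟩ := Pool.Agent.W505.DC.MT Pool.Agent.W505.DC.MI A0 F f hS ε (ε * (η / 16))
    ⌈1 / ε⌉₊ hε (by linarith) (by positivity)
  obtain ⟨η₂, hη₂d⟩ : ∃ η₂ : ℝ, η₂ = min (η / (4 * A0)) (1 / 2) := ⟨_, rfl⟩
  have hη₂0 : 0 < η₂ := by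
    rw [hη₂d]
    exact lt_min (by positivity) (by norm_num)
  have hη₂1 : A0 * η₂ ≤ η / 4 := by
    have : η₂ ≤ η / (4 * A0) := by rw [hη₂d]; exact min_le_left _ _
    calc A0 * η₂ ≤ A0 * (η / (4 * A0)) := by gcongr
      _ = η / 4 := by field_simp
  have hη₂2 : η₂ ≤ 1 / 2 := by rw [hη₂d]; exact min_le_right _ _
  refine ⟨min (min ηM 1) η₂, lt_min (lt_min hηM0 one_pos) hη₂0, ?_⟩
  obtain ⟨N₃, hN₃⟩ := exJ ε hε (by linarith) (C0 * b) hlev
  obtain ⟨N₄, hN₄⟩ := ev_rpow ε hε z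
  refine ⟨max (max N₃ N₄) 2, le_max_right _ _, ?_⟩
  intro N hN
  have hNN₃ : N₃ ≤ N := ((le_max_left _ _).trans (le_max_left _ _)).trans hN
  have hNN₄ : N₄ ≤ N := ((le_max_right _ _).trans (le_max_left _ _)).trans hN
  have hN2 : 2 ≤ N := (le_max_right _ _).trans hN
  have hzN := hN₄ N hNN₄
  refine ⟨hzN, ?_⟩
  intro ι Ω v g A hA hg hMer0 hGs0'
  have hNr : (1 : ℝ) < N := by exact_mod_cast (by omega : 1 < N)
  obtain ⟨J, hJ1, hJ2, hJ3⟩ := hN₃ N hNN₃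
  have hMer : Mer (pr N ε (1 / 4)) (tt N) g ε (1 / 4) (min ηM 1) := fun a b ha hab hb =>
    (hMer0 a b ha hab hb).trans (min_le_left _ _)
  have hGs : ∑ q ∈ pr N (1 / 4) (97 / 100), g q ≤ Real.log (97 / 25) + η₂ :=
    hGs0'.trans (by linarith [min_le_right (min ηM 1) η₂])
  have hzQ : ∀ q ∈ pr N (1 / 4) (97 / 100), z < q := by
    intro q hq
    have h1 := (le_tt_iff hN2 (mem_pr.1 hq).2.1 _).1 (mem_pr.1 hq).2.2.1
    have h2 : (N : ℝ) ^ ε ≤ (N : ℝ) ^ (1 / 4 : ℝ) :=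
      Real.rpow_le_rpow_of_exponent_le hNr.le (by linarith)
    have h3 : (z : ℝ) < q := by linarith
    exact_mod_cast h3
  -- nonnegativity
  have hgP : ∀ p ∈ pr N ε (1 / 4), 0 ≤ g p := by
    intro p hp
    have h1 := (le_tt_iff hN2 (mem_pr.1 hp).2.1 _).1 (mem_pr.1 hp).2.2.1
    have h2 : z < p := by
      have := lt_of_lt_of_le hzN h1
      exact_mod_cast this
    exact (hg p (mem_pr.1 hp).2.1 h2).1
  have hgQ : ∀ q ∈ pr N (1 / 4) (97 / 100), 0 ≤ g q := fun q hq =>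
    (hg q (mem_pr.1 hq).2.1 (hzQ q hq)).1
  have hg1 : ∀ p ∈ P1 N z ε, 0 ≤ g p ∧ g p ≤ 4 / ((p : ℝ) - 1) := fun p hp =>
    ⟨(hg p (mem_P1.1 hp).2.1 (mem_P1.1 hp).1.1).1, (hg p (mem_P1.1 hp).2.1 (mem_P1.1 hp).1.1).2⟩
  have hV0 : 0 ≤ ∏ p ∈ P1 N z ε, (1 - g p) := by
    apply Finset.prod_nonneg
    intro p hp
    have h1 := (hg1 p hp).2
    have h2 : (5 : ℝ) < p := by
      have h3 := (mem_P1.1 hp).1.1
      exact_mod_cast (by omega : 5 < p)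
    have h3 : 4 / ((p : ℝ) - 1) ≤ 1 := by
      rw [div_le_one (by linarith)]
      linarith
    linarith
  have hMer1 : Mer (pr N ε (1 / 4)) (tt N) g ε (1 / 4) ηM := fun a b ha hab hb =>
    (hMer a b ha hab hb).trans (min_le_left _ _)
  have hprod := prod_le hε (by linarith) (min_le_right ηM 1) g hgP hMer
  set P := pr N ε (1 / 4) with hPd
  set Q := pr N (1 / 4) (97 / 100) with hQd
  set V := ∏ p ∈ P1 N z ε, (1 - g p) with hVd
  set x := A * V with hxd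
  have hx : 0 ≤ x := mul_nonneg hA hV0
  set Ω1 := Ω.filter (fun i => ∀ p ∈ P1 N z ε, ¬ p ∣ v i) with hΩ1
  set K := ⌈1 / ε⌉₊ with hK
  have hKε : 1 ≤ (K + 2) * ε := by
    have h1 : 1 / ε ≤ K := Nat.le_ceil _
    have h2 : 1 / ε * ε = 1 := by field_simp
    nlinarith
  have HM' := HM P (tt N) g (1 / 4) (by norm_num) hgP (fun p hp => (mem_pr.1 hp).2.2.1)
    hMer1 K le_rfl
  set TT := (P1 N z ε).powerset.filter
    (fun T : Finset ℕ => ∏ p ∈ T, p ≤ (2 ^ 2 ^ J) ^ (C0 * b)) with hTTd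
  have hTTsub : ∀ T ∈ TT, T ⊆ P1 N z ε := fun T hT => mem_powerset.1 (mem_filter.1 hT).1
  have hTTle : ∀ T ∈ TT, ((∏ p ∈ T, p : ℕ) : ℝ) ≤ (N : ℝ) ^ (1 / 100 : ℝ) := by
    intro T hT
    refine le_trans ?_ hJ2
    exact_mod_cast (mem_filter.1 hT).2
  -- the preliminary sieve
  have hr : ∀ e, e ≠ 0 → (∀ p ∈ e.primeFactors, ε ≤ tt N p) → 0 ≤ gp g e →
      |rem Ω1 v g x e| ≤ β * (x * gp g e) + ((J : ℝ) + 2) * ∑ T ∈ TT, Rr Ω v g A (e * ∏ p ∈ T, p) := by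
    intro e he hep hge
    have h1 := hfund b J z (P1 N z ε) g hb hz
      (fun p hp => ⟨(mem_P1.1 hp).2.1, (mem_P1.1 hp).1.1, hJ1 p (mem_P1.1 hp).2.2⟩) hg1 ι Ω v A e hA
      hge (by
        intro p hp hpe
        have h2 := hep p (Nat.mem_primeFactors.2 ⟨(mem_P1.1 hp).2.1, hpe, he⟩)
        have h3 := (tt_lt_iff hN2 (mem_P1.1 hp).2.1 ε).2 (mem_P1.1 hp).2.2
        linarith)
    have e1 : rem Ω1 v g x e = ((Ω1.filter (fun i => e ∣ v i)).card : ℝ) - A * gp g e * V := by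
      unfold rem
      rw [hxd]
      ring
    have e2 : β * (x * gp g e) = (1 / 2 : ℝ) ^ b * (A * gp g e * V) := by
      rw [hβd, hxd]
      ring
    rw [e1, e2]
    exact h1
  have hJ20 : (0 : ℝ) ≤ (J : ℝ) + 2 := by positivity
  have hEB := fun (bb : Bool) (τ ζ : ℝ) (d : ℕ) (h1 : d ≠ 0)
      (h2 : ∀ p ∈ d.primeFactors, 1 / 4 ≤ tt N p) (h3 : 0 ≤ gp g d) (h4 : 0 ≤ τ)
      (h5 : bb = false → 2 * ζ ≤ τ) =>
    err_bound hN2 (show ε ≤ 1 / 4 by linarith) Ω1 v g hgP x β ((J : ℝ) + 2) TT (Rr Ω v g A) hx hβ0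
      hr K bb τ ζ d h1 h2 h3 h4 h5
  have hone : ∀ p ∈ (1 : ℕ).primeFactors, 1 / 4 ≤ tt N p := by simp
  -- the moduli
  have hm1 : ∀ τ : ℝ, 0 ≤ τ →
      ∑ e ∈ EE P (tt N) τ (1 / 4), ∑ T ∈ TT, Rr Ω v g A (1 * e * ∏ p ∈ T, p) ≤
        ∑ m ∈ Lv' z ((N : ℝ) ^ (τ + 1 / 100)), Rr Ω v g A m := by
    intro τ hτ
    have h1 := moduli hN2 (show ε ≤ 1 / 4 by linarith) hzN {1} (fun _ => τ) (fun _ => 1 / 4) TT
      (D := (N : ℝ) ^ (τ + 1 / 100)) (by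
        intro d hd
        rw [mem_singleton] at hd
        subst hd
        exact ⟨one_ne_zero, squarefree_one, hone⟩) hTTsub (by
        intro d hd e he T hT
        rw [mem_singleton] at hd
        subst hd
        rw [one_mul, Real.rpow_add (by linarith)]
        push_cast
        have h2 := EE_le hN2 hτ he
        have h3 := hTTle T hT
        push_cast at h3
        gcongr) (Rr Ω v g A) (Rr_nonneg Ω v g A)
    rw [sum_singleton] at h1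
    exact h1
  have htq : ∀ q ∈ Q, 1 / 100 < tq N q ∧ tq N q ≤ 73 / 100 := by
    intro q hq
    have h1 := (mem_pr.1 hq).2.2
    unfold tq
    constructor <;> linarith [h1.1, h1.2]
  have hQpf : ∀ q ∈ Q, ∀ p ∈ q.primeFactors, 1 / 4 ≤ tt N p := by
    intro q hq p hp
    have hqp := (mem_pr.1 hq).2.1
    rw [hqp.primeFactors, mem_singleton] at hp
    rw [hp]
    exact (mem_pr.1 hq).2.2.1
  have hmQ : ∑ q ∈ Q, ∑ e ∈ EE P (tt N) (tq N q) (zq N q), ∑ T ∈ TT,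
      Rr Ω v g A (q * e * ∏ p ∈ T, p) ≤ ∑ m ∈ Lv' z ((N : ℝ) ^ (99 / 100 : ℝ)), Rr Ω v g A m := by
    refine moduli hN2 (show ε ≤ 1 / 4 by linarith) hzN Q (tq N) (zq N) TT
      (D := (N : ℝ) ^ (99 / 100 : ℝ)) ?_ hTTsub ?_ (Rr Ω v g A) (Rr_nonneg Ω v g A)
    · intro q hq
      have hqp := (mem_pr.1 hq).2.1
      exact ⟨hqp.ne_zero, hqp.prime.squarefree, hQpf q hq⟩
    · intro q hq e he T hT
      have hqp := (mem_pr.1 hq).2.1
      have h2 := EE_le hN2 (by linarith [(htq q hq).1]) he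
      have h3 := hTTle T hT
      have h4 : (N : ℝ) ^ (99 / 100 : ℝ) =
          (N : ℝ) ^ (tt N q) * (N : ℝ) ^ (tq N q) * (N : ℝ) ^ (1 / 100 : ℝ) := by
        rw [← Real.rpow_add (by linarith), ← Real.rpow_add (by linarith)]
        congr 1
        unfold tq
        ring
      rw [h4, rpow_tt hN2 hqp]
      push_cast
      push_cast at h3
      gcongr
  have hgpq : ∀ q ∈ Q, gp g q = g q := by
    intro q hq
    unfold gp
    rw [(mem_pr.1 hq).2.1.primeFactors, prod_singleton]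
  have hSR0 : ∀ D : ℝ, 0 ≤ ∑ m ∈ Lv' z D, Rr Ω v g A m := fun D =>
    Finset.sum_nonneg fun m _ => Rr_nonneg Ω v g A m
  have hxβ : x * (β * (1 / ε)) ≤ x * (ε * (η / 16)) := mul_le_mul_of_nonneg_left hβε hx
  -- lower bound
  set SR := ∑ m ∈ Lv' z ((N : ℝ) ^ (99 / 100 : ℝ)), Rr Ω v g A m with hSRd
  have hSR := hSR0 ((N : ℝ) ^ (99 / 100 : ℝ))
  rw [← hSRd] at hSR
  set Gs := ∑ q ∈ Q, g q with hGsd
  have hGs0 : 0 ≤ Gs := Finset.sum_nonneg hgQ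
  have hGs2 : Gs ≤ 2 := by
    have := log_97
    linarith
  have hsum : ∑ i ∈ Ω1, (LL P (tt N) (ind (v i)) K false (98 / 100) (1 / 4) 1 -
      ∑ q ∈ Q, cq N q * LL P (tt N) (ind (v i)) K true (tq N q) (zq N q) q) ≤
      ∑ i ∈ Ω1, II N ε (v i) * (1 - ∑ q ∈ Q, cq N q * (if q ∣ v i then 1 else 0)) :=
    Finset.sum_le_sum fun i _ => II_ge N hN2 ε K (v i)
  refine le_trans ?_ hsum
  rw [Finset.sum_sub_distrib, Finset.sum_comm]
  -- the first term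
  have e1 := LL_main hN2 (ε := ε) (w := 1 / 4) Ω1 v g x K false (98 / 100) (1 / 4) 1
    (fun p hp _ h => (mem_pr.1 hp).2.1.one_lt.ne' (Nat.dvd_one.1 h))
  have e2 := (HM' (98 / 100) (1 / 4) (by linarith) (by linarith) le_rfl (by norm_num)
    (by norm_num)).2 (by norm_num)
  have e3 : ε / (1 / 4) * f (98 / 100 / (1 / 4)) = ε * A0 * (50 / 49 * Real.log (73 / 25)) := by
    rw [hS.f4 _ (by norm_num) (by norm_num)]
    have : (98 / 100 / (1 / 4) - 1 : ℝ) = 73 / 25 := by norm_num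
    rw [this]
    ring
  rw [e3] at e2
  have e4 := hEB false (98 / 100) (1 / 4) 1 one_ne_zero hone (by rw [gp_one]; norm_num)
    (by norm_num) (fun _ => by norm_num)
  rw [gp_one, one_mul] at e4
  have e5 := hm1 (98 / 100) (by norm_num)
  have e6 : (98 / 100 + 1 / 100 : ℝ) = 99 / 100 := by norm_num
  rw [e6, ← hSRd] at e5
  have hfirst : x * (ε * A0 * (50 / 49 * Real.log (73 / 25))) - x * (ε * (η / 16)) -
      x * (ε * (η / 16)) - ((J : ℝ) + 2) * SR ≤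
      ∑ i ∈ Ω1, LL P (tt N) (ind (v i)) K false (98 / 100) (1 / 4) 1 := by
    rw [e1, gp_one, one_mul]
    have h1 : x * (ε * A0 * (50 / 49 * Real.log (73 / 25)) - ε * (η / 16)) ≤
        x * MM P (tt N) g K false (98 / 100) (1 / 4) := mul_le_mul_of_nonneg_left e2 hx
    have h2 := (abs_le.1 e4).1
    have h3 : β * (x * ∏ p ∈ P, (1 + g p)) ≤ x * (β * (1 / ε)) := by
      calc β * (x * ∏ p ∈ P, (1 + g p)) ≤ β * (x * (1 / ε)) := by gcongr
        _ = _ := by ring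
    have h4 : ((J : ℝ) + 2) * ∑ e ∈ EE P (tt N) (98 / 100) (1 / 4), ∑ T ∈ TT,
        Rr Ω v g A (1 * e * ∏ p ∈ T, p) ≤ ((J : ℝ) + 2) * SR :=
      mul_le_mul_of_nonneg_left e5 hJ20
    rw [mul_sub] at h1
    linarith only [h1, h2, h3, h4, hxβ]
  -- the terms with `q`
  have hq1 : ∀ q ∈ Q, MM P (tt N) g K true (tq N q) (zq N q) ≤
      ε * A0 / tq N q + ε * (η / 16) := by
    intro q hq
    obtain ⟨h0, h1⟩ := htq q hq
    have h2 : zq N q ≤ tq N q := min_le_right _ _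
    have h3 : ε ≤ zq N q := le_min (by linarith) (by linarith)
    have h5 := (HM' (tq N q) (zq N q) (by linarith) h3 (min_le_left _ _) h2 (by linarith)).1
    have h6 : 0 < zq N q := by linarith
    have h8 : tq N q ≤ 3 * zq N q := by
      unfold zq
      rcases le_total (1 / 4) (tq N q) with h | h
      · rw [min_eq_left h]
        linarith
      · rw [min_eq_right h]
        linarith
    have h7 : ε / zq N q * F (tq N q / zq N q) = ε * A0 / tq N q := by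
      rw [hS.F3 _ ((one_le_div h6).2 h2) ((div_le_iff₀ h6).2 h8)]
      field_simp
    rw [h7] at h5
    exact h5
  have hcqt : ∀ q ∈ Q, cq N q * (1 / tq N q) ≤ 26 / 49 := by
    intro q hq
    obtain ⟨h0, h1⟩ := htq q hq
    rw [mul_one_div, div_le_iff₀ (by linarith)]
    have h2 := (mem_pr.1 hq).2.2
    unfold cq tq
    nlinarith [h2.1, h2.2]
  have hq2 : ∀ q ∈ Q, cq N q * ∑ i ∈ Ω1, LL P (tt N) (ind (v i)) K true (tq N q) (zq N q) q ≤
      x * (ε * A0 * (26 / 49)) * g q + x * (ε * (η / 16)) * (13 / 25) * g q +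
        x * (ε * (η / 16)) * (13 / 25) * g q +
        13 / 25 * (((J : ℝ) + 2) * ∑ e ∈ EE P (tt N) (tq N q) (zq N q), ∑ T ∈ TT,
          Rr Ω v g A (q * e * ∏ p ∈ T, p)) := by
    intro q hq
    obtain ⟨h0, h1⟩ := htq q hq
    have hqp := (mem_pr.1 hq).2.1
    have hgq := hgQ q hq
    have f1 := LL_main hN2 (ε := ε) (w := 1 / 4) Ω1 v g x K true (tq N q) (zq N q) q (by
      intro p hp _ h
      have h4 := (Nat.prime_dvd_prime_iff_eq (mem_pr.1 hp).2.1 hqp).1 h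
      have h5 := (mem_pr.1 hp).2.2.2
      have h6 := (mem_pr.1 hq).2.2.1
      rw [h4] at h5
      linarith)
    rw [hgpq q hq] at f1
    have f2 := hEB true (tq N q) (zq N q) q hqp.ne_zero (hQpf q hq)
      (by rw [hgpq q hq]; exact hgq) (by linarith) (fun h => by simp at h)
    rw [hgpq q hq] at f2
    have f3 := (abs_le.1 f2).2
    have f4 := hq1 q hq
    have f5 := cq_nonneg q hq
    have f6 := cq_le hN2 q hq
    have f7 := hcqt q hq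
    have f8 : β * (x * (g q * ∏ p ∈ P, (1 + g p))) ≤ x * (ε * (η / 16)) * g q := by
      calc β * (x * (g q * ∏ p ∈ P, (1 + g p))) ≤ β * (x * (g q * (1 / ε))) := by gcongr
        _ = x * (β * (1 / ε)) * g q := by ring
        _ ≤ _ := mul_le_mul_of_nonneg_right hxβ hgq
    have f9 : 0 ≤ ∑ e ∈ EE P (tt N) (tq N q) (zq N q), ∑ T ∈ TT,
          Rr Ω v g A (q * e * ∏ p ∈ T, p) :=
      Finset.sum_nonneg fun e _ => Finset.sum_nonneg fun T _ => Rr_nonneg Ω v g A _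
    rw [f1]
    exact arith_q f5 f6 f7 hx hgq (by positivity) (by positivity) (mul_nonneg hJ20 f9) f4 f3 f8
  have hQsum : ∑ q ∈ Q, ∑ i ∈ Ω1, cq N q *
      LL P (tt N) (ind (v i)) K true (tq N q) (zq N q) q ≤
      x * (ε * A0 * (26 / 49)) * Gs + x * (ε * (η / 16)) * (13 / 25) * Gs +
        x * (ε * (η / 16)) * (13 / 25) * Gs + 13 / 25 * (((J : ℝ) + 2) * SR) := by
    have h1 : ∑ q ∈ Q, ∑ i ∈ Ω1, cq N q *
        LL P (tt N) (ind (v i)) K true (tq N q) (zq N q) q ≤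
        ∑ q ∈ Q, (x * (ε * A0 * (26 / 49)) * g q + x * (ε * (η / 16)) * (13 / 25) * g q +
        x * (ε * (η / 16)) * (13 / 25) * g q +
        13 / 25 * (((J : ℝ) + 2) * ∑ e ∈ EE P (tt N) (tq N q) (zq N q), ∑ T ∈ TT,
          Rr Ω v g A (q * e * ∏ p ∈ T, p))) := by
      apply Finset.sum_le_sum
      intro q hq
      rw [← Finset.mul_sum]
      exact hq2 q hq
    refine h1.trans ?_
    have h2 : ((J : ℝ) + 2) * ∑ q ∈ Q, ∑ e ∈ EE P (tt N) (tq N q) (zq N q),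
        ∑ T ∈ TT, Rr Ω v g A (q * e * ∏ p ∈ T, p) ≤ ((J : ℝ) + 2) * SR :=
      mul_le_mul_of_nonneg_left hmQ hJ20
    simp only [Finset.sum_add_distrib, ← Finset.mul_sum]
    rw [← hGsd]
    linarith only [h2]
  exact arith_low hx hε hη hA0 hη₂1 hη₂0 hGs hGs2 hSR (Nat.cast_nonneg J) hJ3 hfirst hQsum

end Pool.Agent.Y675.TC
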