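import Pool.Agent.Y675.TC.Stm

/-!
Project TC (helper675): roots modulo primes, pairs with the same value.
-/

set_option autoImplicit false

namespace Pool.Agent.Y675.TC

open Finset Polynomial

lemma FF_pos {B : ℕ} (r s : ℤ) (h : s ≠ 0) : 0 < FF B r s := by
  unfold FF
  have h1 : 0 < s ^ 4 := by positivity
  have h2 : (0 : ℤ) ≤ 6 * B * r ^ 2 * s ^ 2 := by positivity
  have h3 : (0 : ℤ) ≤ (B : ℤ) ^ 2 * r ^ 4 := by positivity
  linarith

lemma FF_hom (B : ℕ) (c r s : ℤ) : FF B (c * r) (c * s) = c ^ 4 * FF B r s := by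
  unfold FF
  ring

lemma FF_modEq {B : ℕ} {n r r' s s' : ℤ} (hr : r ≡ r' [ZMOD n]) (hs : s ≡ s' [ZMOD n]) :
    FF B r s ≡ FF B r' s' [ZMOD n] := by
  unfold FF
  exact ((hs.pow 4).add (((Int.ModEq.refl (6 * (B : ℤ))).mul (hr.pow 2)).mul (hs.pow 2))).add
    ((Int.ModEq.refl ((B : ℤ) ^ 2)).mul (hr.pow 4))

/-- the quartic polynomial modulo `p` -/
noncomputable def qp (B p : ℕ) : (ZMod p)[X] :=
  X ^ 4 + C (6 * (B : ZMod p)) * X ^ 2 + C ((B : ZMod p) ^ 2)

lemma qp_deg (B p : ℕ) [Fact p.Prime] : (qp B p).natDegree = 4 := by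
  unfold qp
  compute_degree!

lemma qp_ne (B p : ℕ) [Fact p.Prime] : qp B p ≠ 0 := by
  intro h
  have := qp_deg B p
  rw [h, natDegree_zero] at this
  omega

lemma dvd_iff_zmod (B p : ℕ) (r s : ℤ) :
    ((p : ℤ) ∣ FF B r s) ↔
      (s : ZMod p) ^ 4 + 6 * (B : ZMod p) * (r : ZMod p) ^ 2 * (s : ZMod p) ^ 2 +
        (B : ZMod p) ^ 2 * (r : ZMod p) ^ 4 = 0 := by
  rw [← ZMod.intCast_zmod_eq_zero_iff_dvd]
  unfold FF
  push_cast
  rfl

theorem Rt_card_le (B p : ℕ) (hp : p.Prime) : (Rt B p).card ≤ 4 := by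
  classical
  have : Fact p.Prime := ⟨hp⟩
  have h1 : (Rt B p).card ≤ (qp B p).roots.toFinset.card := by
    apply Finset.card_le_card_of_injOn (fun t : ℕ => (t : ZMod p))
    · intro t ht
      simp only [Rt, coe_filter, mem_range, Set.mem_ofPred_eq] at ht
      simp only [Multiset.mem_toFinset, mem_coe]
      rw [mem_roots (qp_ne B p), IsRoot.def]
      have := (dvd_iff_zmod B p 1 t).1 ht.2
      unfold qp
      simp only [eval_add, eval_mul, eval_pow, eval_X, eval_C]
      push_cast at this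
      simpa using this
    · intro t ht t' ht' h
      simp only [Rt, coe_filter, mem_range, Set.mem_ofPred_eq] at ht ht'
      have h2 : (t : ZMod p) = (t' : ZMod p) := h
      rw [ZMod.natCast_eq_natCast_iff] at h2
      exact h2.eq_of_lt_of_lt ht.1 ht'.1
  have h2 : (qp B p).roots.toFinset.card ≤ (qp B p).natDegree :=
    (Multiset.toFinset_card_le _).trans (card_roots' _)
  rw [qp_deg] at h2
  omega

theorem t_MUL : S_MUL := by
  classical
  intro B v hB hv S hS
  -- the map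
  have hv0 : v ≠ 0 := hv.ne_zero
  have hkey : ∀ i ∈ S, ∀ p ∈ v.natAbs.primeFactors, ¬ (p : ℤ) ∣ (i.1 : ℤ) := by
    intro i hi p hp hpr
    obtain ⟨h1, h2, h3⟩ := hS i hi
    have hpp := Nat.prime_of_mem_primeFactors hp
    have hpz : Prime (p : ℤ) := Nat.prime_iff_prime_int.1 hpp
    have hpv : (p : ℤ) ∣ v := Int.natCast_dvd.2 (Nat.dvd_of_mem_primeFactors hp)
    have h4 : (p : ℤ) ∣ (i.2 : ℤ) ^ 4 := by
      have e : (i.2 : ℤ) ^ 4 = v - (i.1 : ℤ) * (6 * B * i.1 * (i.2 : ℤ) ^ 2 + (B : ℤ) ^ 2 * i.1 ^ 3) := by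
        rw [← h3]
        unfold FF
        ring
      rw [e]
      exact dvd_sub hpv (Dvd.dvd.mul_right hpr _)
    have h5 : (p : ℤ) ∣ (i.2 : ℤ) := hpz.dvd_of_dvd_pow h4
    obtain ⟨a, ha⟩ := hpr
    obtain ⟨b, hb⟩ := h5
    have h6 : (p : ℤ) * p ∣ v := by
      rw [← h3, ha, hb, FF_hom]
      exact ⟨(p : ℤ) ^ 2 * FF B a b, by ring⟩
    have h7 := hv (p : ℤ) h6
    exact hpz.not_isUnit h7
  have hle : S.card ≤ (v.natAbs.primeFactors.pi (fun p => Rt B p)).card := by
    apply Finset.card_le_card_of_injOn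
      (fun i => fun p (_ : p ∈ v.natAbs.primeFactors) => ((i.2 : ZMod p) * (i.1 : ZMod p)⁻¹).val)
    · intro i hi
      have hi : i ∈ S := hi
      simp only [mem_coe, Finset.mem_pi]
      intro p hp
      have hpp := Nat.prime_of_mem_primeFactors hp
      have : Fact p.Prime := ⟨hpp⟩
      obtain ⟨h1, h2, h3⟩ := hS i hi
      have hr : (i.1 : ZMod p) ≠ 0 := by
        intro h
        apply hkey i hi p hp
        have h' : ((i.1 : ℤ) : ZMod p) = 0 := by exact_mod_cast h
        exact (ZMod.intCast_zmod_eq_zero_iff_dvd _ _).1 h'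
      unfold Rt
      rw [mem_filter, mem_range]
      refine ⟨ZMod.val_lt _, ?_⟩
      rw [dvd_iff_zmod]
      have hpv : (p : ℤ) ∣ FF B i.1 i.2 := by
        rw [h3]
        exact Int.natCast_dvd.2 (Nat.dvd_of_mem_primeFactors hp)
      rw [dvd_iff_zmod] at hpv
      push_cast at hpv ⊢
      rw [ZMod.natCast_val, ZMod.cast_id]
      have e : ((i.2 : ZMod p) * (i.1 : ZMod p)⁻¹) ^ 4 +
          6 * (B : ZMod p) * 1 ^ 2 * ((i.2 : ZMod p) * (i.1 : ZMod p)⁻¹) ^ 2 +
          (B : ZMod p) ^ 2 * 1 ^ 4 = ((i.2 : ZMod p) ^ 4 + 6 * (B : ZMod p) * (i.1 : ZMod p) ^ 2 *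
            (i.2 : ZMod p) ^ 2 + (B : ZMod p) ^ 2 * (i.1 : ZMod p) ^ 4) * ((i.1 : ZMod p)⁻¹) ^ 4 := by
        field_simp
      rw [e, hpv, zero_mul]
    · intro i hi j hj hij
      have hi : i ∈ S := hi
      have hj : j ∈ S := hj
      obtain ⟨a1, a2, a3⟩ := hS i hi
      obtain ⟨b1, b2, b3⟩ := hS j hj
      have h1 : v ∣ (i.2 : ℤ) * j.1 - j.2 * i.1 := by
        rw [← Int.natAbs_dvd_natAbs]
        have hsq : Squarefree v.natAbs := Int.squarefree_natAbs.2 hv
        rw [← Nat.prod_primeFactors_of_squarefree hsq]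
        apply Finset.prod_primes_dvd
        · intro p hp
          exact (Nat.prime_of_mem_primeFactors hp).prime
        · intro p hp
          have hpp := Nat.prime_of_mem_primeFactors hp
          have : Fact p.Prime := ⟨hpp⟩
          have hri : (i.1 : ZMod p) ≠ 0 := by
            intro h
            apply hkey i hi p hp
            have h' : ((i.1 : ℤ) : ZMod p) = 0 := by exact_mod_cast h
            exact (ZMod.intCast_zmod_eq_zero_iff_dvd _ _).1 h'
          have hrj : (j.1 : ZMod p) ≠ 0 := by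
            intro h
            apply hkey j hj p hp
            have h' : ((j.1 : ℤ) : ZMod p) = 0 := by exact_mod_cast h
            exact (ZMod.intCast_zmod_eq_zero_iff_dvd _ _).1 h'
          have h2 := congrFun (congrFun hij p) hp
          have h3 : (i.2 : ZMod p) * (i.1 : ZMod p)⁻¹ = (j.2 : ZMod p) * (j.1 : ZMod p)⁻¹ :=
            ZMod.val_injective p h2
          have h4 : (i.2 : ZMod p) * j.1 = (j.2 : ZMod p) * i.1 := by
            field_simp at h3
            linear_combination h3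
          rw [← Int.natCast_dvd, ← ZMod.intCast_zmod_eq_zero_iff_dvd]
          push_cast
          rw [h4, sub_self]
      -- size
      have hsize : ∀ r s : ℕ, 1 ≤ r → 1 ≤ s → FF B r s = v → (r : ℤ) ^ 4 < v ∧ (s : ℤ) ^ 4 < v := by
        intro r s hr hs h
        rw [← h]
        unfold FF
        have hr' : (1 : ℤ) ≤ r := by exact_mod_cast hr
        have hs' : (1 : ℤ) ≤ s := by exact_mod_cast hs
        have hB' : (1 : ℤ) ≤ B := by exact_mod_cast hB
        have g1 : (1 : ℤ) ≤ (B : ℤ) ^ 2 := by nlinarith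
        have g2 : (0 : ℤ) < 6 * B * (r : ℤ) ^ 2 * (s : ℤ) ^ 2 := by positivity
        have g3 : (0 : ℤ) < (s : ℤ) ^ 4 := by positivity
        have g4 : (0 : ℤ) < (r : ℤ) ^ 4 := by positivity
        constructor <;> nlinarith
      obtain ⟨c1, c2⟩ := hsize _ _ a1 a2 a3
      obtain ⟨d1, d2⟩ := hsize _ _ b1 b2 b3
      have hmul : ∀ x y : ℕ, 1 ≤ x → 1 ≤ y → (x : ℤ) ^ 4 < v → (y : ℤ) ^ 4 < v → (x : ℤ) * y < v := by
        intro x y hx hy h h'
        have hx' : (1 : ℤ) ≤ x := by exact_mod_cast hx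
        have hy' : (1 : ℤ) ≤ y := by exact_mod_cast hy
        rcases le_total (x : ℤ) y with hxy | hxy
        · calc (x : ℤ) * y ≤ y * y := by gcongr
            _ ≤ (y : ℤ) ^ 4 := by nlinarith [mul_le_mul hy' hy' (by norm_num) (by linarith)]
            _ < v := h'
        · calc (x : ℤ) * y ≤ x * x := by gcongr
            _ ≤ (x : ℤ) ^ 4 := by nlinarith [mul_le_mul hx' hx' (by norm_num) (by linarith)]
            _ < v := h
      have e1 := hmul i.2 j.1 a2 b1 c2 d1
      have e2 := hmul j.2 i.1 b2 a1 d2 c1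
      have e3 : (0 : ℤ) < (i.2 : ℤ) * j.1 := by positivity
      have e4 : (0 : ℤ) < (j.2 : ℤ) * i.1 := by positivity
      have h5 : (i.2 : ℤ) * j.1 - j.2 * i.1 = 0 := by
        apply Int.eq_zero_of_abs_lt_dvd h1
        rw [abs_lt]
        constructor <;> linarith
      -- coprime
      have hcop : ∀ r s : ℕ, FF B r s = v → Nat.Coprime r s := by
        intro r s h
        by_contra hc
        obtain ⟨p, hpp, h1, h2⟩ := Nat.Prime.not_coprime_iff_dvd.1 hc
        have hpz : Prime (p : ℤ) := Nat.prime_iff_prime_int.1 hpp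
        obtain ⟨a, ha⟩ : (p : ℤ) ∣ r := by exact_mod_cast h1
        obtain ⟨b, hb⟩ : (p : ℤ) ∣ s := by exact_mod_cast h2
        have h6 : (p : ℤ) * p ∣ v := by
          rw [← h, ha, hb, FF_hom]
          exact ⟨(p : ℤ) ^ 2 * FF B a b, by ring⟩
        exact hpz.not_isUnit (hv (p : ℤ) h6)
      have k1 := hcop _ _ a3
      have k2 := hcop _ _ b3
      have h6 : i.2 * j.1 = j.2 * i.1 := by
        have : (i.2 : ℤ) * j.1 = j.2 * i.1 := by linarith
        exact_mod_cast this
      have h7 : i.1 ∣ j.1 := by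
        exact k1.dvd_of_dvd_mul_left ⟨j.2, by rw [h6]; ring⟩
      have h8 : j.1 ∣ i.1 := by
        exact k2.dvd_of_dvd_mul_left ⟨i.2, by rw [← h6]; ring⟩
      have h9 : i.1 = j.1 := Nat.dvd_antisymm h7 h8
      have h10 : i.2 = j.2 := by
        rw [h9] at h6
        exact Nat.eq_of_mul_eq_mul_right (by omega) h6
      exact Prod.ext h9 h10
  refine hle.trans ?_
  rw [Finset.card_pi]
  calc ∏ p ∈ v.natAbs.primeFactors, (Rt B p).card ≤ ∏ p ∈ v.natAbs.primeFactors, 4 :=
        Finset.prod_le_prod' fun p hp => Rt_card_le B p (Nat.prime_of_mem_primeFactors hp)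
    _ = 4 ^ v.natAbs.primeFactors.card := by rw [Finset.prod_const]

end Pool.Agent.Y675.TC
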