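import Pool.Agent.Y675.TC.Core
import Pool.Agent.Y675.TC.Mul

/-!
Project TC (helper675): densities and remainders for the sieve.
-/

set_option autoImplicit false

namespace Pool.Agent.Y675.TC

open Finset Pool.Agent.W23.DC Pool.Agent.Y660.RP Filter

/-- the density, `0` at the primes dividing `Q` -/
noncomputable def gg (B Q p : ℕ) : ℝ := if p ∣ Q then 0 else gd B p

lemma gd_nonneg (B p : ℕ) (hp : p.Prime) : 0 ≤ gd B p := by
  unfold gd
  have h1 : (1 : ℝ) ≤ p := by exact_mod_cast hp.one_le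
  have h2 : (0 : ℝ) ≤ (p : ℝ) - 1 := by linarith
  positivity

lemma gd_le (B p : ℕ) (hp : p.Prime) : gd B p ≤ (4 * (p : ℝ) - 3) / (p : ℝ) ^ 2 := by
  unfold gd
  have h1 : (1 : ℝ) ≤ p := by exact_mod_cast hp.one_le
  have h2 : (0 : ℝ) ≤ (p : ℝ) - 1 := by linarith
  have h3 : ((Rt B p).card : ℝ) ≤ 4 := by exact_mod_cast Rt_card_le B p hp
  apply div_le_div_of_nonneg_right _ (by positivity)
  nlinarith

lemma gd_le' (B p : ℕ) (hp : p.Prime) : gd B p ≤ 4 / ((p : ℝ) - 1) := by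
  refine (gd_le B p hp).trans ?_
  have h1 : (2 : ℝ) ≤ p := by exact_mod_cast hp.two_le
  rw [div_le_div_iff₀ (by positivity) (by linarith)]
  nlinarith

lemma gd_lt_one (B p : ℕ) (hp : p.Prime) (h : 5 < p) : gd B p < 1 := by
  refine (gd_le B p hp).trans_lt ?_
  have h1 : (5 : ℝ) < p := by exact_mod_cast h
  rw [div_lt_one (by positivity)]
  nlinarith

lemma gg_nonneg (B Q p : ℕ) (hp : p.Prime) : 0 ≤ gg B Q p := by
  unfold gg
  split_ifs
  · exact le_rfl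
  · exact gd_nonneg B p hp

lemma gg_le_gd (B Q p : ℕ) (hp : p.Prime) : gg B Q p ≤ gd B p := by
  unfold gg
  split_ifs
  · exact gd_nonneg B p hp
  · exact le_rfl

lemma vv_mod (B Q : ℕ) (i : ℕ × ℕ × ℕ × ℕ) :
    FF B ((Q * (i.1 + i.2.1) : ℕ) : ℤ) ((1 + Q * (i.2.2.1 + i.2.2.2) : ℕ) : ℤ) ≡ 1 [ZMOD Q] := by
  have h1 : ((Q * (i.1 + i.2.1) : ℕ) : ℤ) ≡ 0 [ZMOD Q] := by
    push_cast
    exact (Int.modEq_zero_iff_dvd).2 (Dvd.intro _ rfl)
  have h2 : ((1 + Q * (i.2.2.1 + i.2.2.2) : ℕ) : ℤ) ≡ 1 [ZMOD Q] := by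
    push_cast
    have h3 : (Q : ℤ) * (i.2.2.1 + i.2.2.2) ≡ 0 [ZMOD Q] :=
      (Int.modEq_zero_iff_dvd).2 (Dvd.intro _ rfl)
    simpa using (Int.ModEq.refl (1 : ℤ)).add h3
  have h3 := FF_modEq (B := B) h1 h2
  have h4 : FF B 0 1 = 1 := by unfold FF; ring
  rwa [h4] at h3

lemma vv_pos (B Q : ℕ) (i : ℕ × ℕ × ℕ × ℕ) :
    0 < FF B ((Q * (i.1 + i.2.1) : ℕ) : ℤ) ((1 + Q * (i.2.2.1 + i.2.2.2) : ℕ) : ℤ) := by
  apply FF_pos
  push_cast
  positivity

lemma vv_ne_zero (B Q : ℕ) (i : ℕ × ℕ × ℕ × ℕ) : vv B Q i ≠ 0 := by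
  unfold vv
  exact Int.natAbs_ne_zero.2 (vv_pos B Q i).ne'

lemma vv_cast (B Q : ℕ) (i : ℕ × ℕ × ℕ × ℕ) : ((vv B Q i : ℕ) : ℤ) =
    FF B ((Q * (i.1 + i.2.1) : ℕ) : ℤ) ((1 + Q * (i.2.2.1 + i.2.2.2) : ℕ) : ℤ) := by
  unfold vv
  exact Int.natAbs_of_nonneg (vv_pos B Q i).le

lemma vv_not_dvd {B Q p : ℕ} (hp : p.Prime) (hpQ : p ∣ Q) (i : ℕ × ℕ × ℕ × ℕ) :
    ¬ p ∣ vv B Q i := by
  intro h
  have h1 : (p : ℤ) ∣ FF B ((Q * (i.1 + i.2.1) : ℕ) : ℤ) ((1 + Q * (i.2.2.1 + i.2.2.2) : ℕ) : ℤ) := by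
    rw [← vv_cast]
    exact_mod_cast h
  have h2 : (p : ℤ) ∣ (Q : ℤ) := by exact_mod_cast hpQ
  have h3 := (vv_mod B Q i).of_dvd (m := (p : ℤ)) h2
  have h4 := (Int.modEq_zero_iff_dvd).2 h1
  have h5 := (Int.modEq_iff_dvd.1 (h4.symm.trans h3))
  have h6 : (p : ℤ) ∣ 1 := by simpa using h5
  have h7 : p ∣ 1 := by exact_mod_cast h6
  exact hp.one_lt.ne' (Nat.dvd_one.1 h7)

open Classical in
theorem rem_le (B Q z M : ℕ) (D : ℝ) :
    ∑ q ∈ Lv' z D, Rr (Om M) (vv B Q) (gg B Q) ((M : ℝ) ^ 4) q ≤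
    ∑ q ∈ (Icc 1 ⌊D⌋₊).filter (fun q : ℕ => Squarefree q ∧ q.Coprime Q),
      |(((Om M).filter (fun i => q ∣ vv B Q i)).card : ℝ) -
        (M : ℝ) ^ 4 * ∏ p ∈ q.primeFactors, gd B p| := by
  classical
  rw [← Finset.sum_filter_add_sum_filter_not (Lv' z D) (fun q => q.Coprime Q)]
  have h1 : ∑ q ∈ (Lv' z D).filter (fun q => ¬ q.Coprime Q),
      Rr (Om M) (vv B Q) (gg B Q) ((M : ℝ) ^ 4) q = 0 := by
    apply Finset.sum_eq_zero
    intro q hq
    rw [mem_filter] at hq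
    obtain ⟨p, hp, h2, h3⟩ := Nat.Prime.not_coprime_iff_dvd.1 hq.2
    have hq0 : q ≠ 0 := by
      have := (mem_Icc.1 (mem_filter.1 hq.1).1).1
      omega
    unfold Rr
    have h4 : gp (gg B Q) q = 0 := by
      unfold gp
      apply Finset.prod_eq_zero (i := p) (Nat.mem_primeFactors.2 ⟨hp, h2, hq0⟩)
      unfold gg
      rw [if_pos h3]
    have h5 : (Om M).filter (fun i => q ∣ vv B Q i) = ∅ := by
      apply Finset.filter_false_of_mem
      intro i _ h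
      exact vv_not_dvd hp h3 i (h2.trans h)
    rw [h4, h5]
    simp
  rw [h1, add_zero]
  have h2 : ∑ q ∈ (Lv' z D).filter (fun q => q.Coprime Q),
      Rr (Om M) (vv B Q) (gg B Q) ((M : ℝ) ^ 4) q =
      ∑ q ∈ (Lv' z D).filter (fun q => q.Coprime Q),
      |(((Om M).filter (fun i => q ∣ vv B Q i)).card : ℝ) -
        (M : ℝ) ^ 4 * ∏ p ∈ q.primeFactors, gd B p| := by
    apply Finset.sum_congr rfl
    intro q hq
    rw [mem_filter] at hq
    unfold Rr gp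
    have : ∏ p ∈ q.primeFactors, gg B Q p = ∏ p ∈ q.primeFactors, gd B p := by
      apply Finset.prod_congr rfl
      intro p hp
      unfold gg
      rw [if_neg]
      intro h
      have hpp := Nat.prime_of_mem_primeFactors hp
      exact Nat.not_coprime_of_dvd_of_dvd hpp.one_lt (Nat.dvd_of_mem_primeFactors hp) h hq.2
    rw [this]
  rw [h2]
  apply Finset.sum_le_sum_of_subset_of_nonneg
  · intro q hq
    rw [mem_filter] at hq
    have h3 := mem_filter.1 hq.1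
    exact mem_filter.2 ⟨h3.1, h3.2.1, hq.2⟩
  · intro q _ _
    exact abs_nonneg _

/-- Mertens' theorem for `gg` -/
theorem mrs_gg (hM : S_MRS) (B Q : ℕ) (hB : 1 ≤ B) (hQ : 1 ≤ Q) (ε η : ℝ) (hε : 0 < ε)
    (hη : 0 < η) : ∃ N₀ : ℕ, ∀ N : ℕ, N₀ ≤ N → ∀ a b : ℝ, ε ≤ a → a ≤ b → b ≤ 1 →
      |∑ p ∈ pr N a b, gg B Q p - Real.log (b / a)| ≤ η := by
  obtain ⟨N₁, h1⟩ := hM B hB ε η hε hη
  obtain ⟨N₂, h2⟩ := ev_rpow ε hε Q
  refine ⟨max (max N₁ N₂) 2, fun N hN a b ha hab hb => ?_⟩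
  have hNN₁ : N₁ ≤ N := ((le_max_left _ _).trans (le_max_left _ _)).trans hN
  have hNN₂ : N₂ ≤ N := ((le_max_right _ _).trans (le_max_left _ _)).trans hN
  have hN2 : 2 ≤ N := (le_max_right _ _).trans hN
  have hNr : (1 : ℝ) ≤ N := by exact_mod_cast (by omega : 1 ≤ N)
  have h3 := h1 N hNN₁ a b ha hab hb
  have h4 := h2 N hNN₂
  have e : ∑ p ∈ pr N a b, gg B Q p = ∑ p ∈ (Icc 1 N).filter (fun p : ℕ => p.Prime ∧
      a ≤ Real.log p / Real.log N ∧ Real.log p / Real.log N < b), gd B p := by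
    apply Finset.sum_congr
    · ext p
      simp only [mem_pr, mem_filter, mem_Icc, tt]
    · intro p hp
      have hp' := mem_filter.1 hp
      have hpp := hp'.2.1
      have h5 : (N : ℝ) ^ a ≤ p := (le_tt_iff hN2 hpp a).1 hp'.2.2.1
      have h6 : (N : ℝ) ^ ε ≤ (N : ℝ) ^ a := Real.rpow_le_rpow_of_exponent_le hNr ha
      have h7 : (Q : ℝ) < p := by linarith
      unfold gg
      rw [if_neg]
      intro h
      have h8 := Nat.le_of_dvd (by omega) h
      have h9 : (p : ℝ) ≤ Q := by exact_mod_cast h8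
      linarith
  rw [e]
  exact h3

/-- lower bound of the product -/
theorem prd_gg (hP : S_PRD) (B Q : ℕ) (hB : 1 ≤ B) : ∃ c : ℝ, 0 < c ∧ ∀ (N z : ℕ) (ε : ℝ), 3 ≤ N →
    5 ≤ z → c / Real.log N ≤ ∏ p ∈ P1 N z ε, (1 - gg B Q p) := by
  classical
  obtain ⟨c, hc, h⟩ := hP B hB
  refine ⟨c, hc, fun N z ε hN hz => (h N z hN hz).trans ?_⟩
  have hsub : P1 N z ε ⊆ (Ioc z N).filter Nat.Prime := by
    intro p hp
    rw [mem_P1] at hp
    exact mem_filter.2 ⟨mem_Ioc.2 hp.1, hp.2.1⟩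
  have hbig : ∀ p ∈ (Ioc z N).filter Nat.Prime, p.Prime ∧ 5 < p := by
    intro p hp
    rw [mem_filter, mem_Ioc] at hp
    exact ⟨hp.2, by omega⟩
  rw [← Finset.prod_sdiff hsub]
  calc _ ≤ 1 * ∏ p ∈ P1 N z ε, (1 - gd B p) := by
        apply mul_le_mul_of_nonneg_right
        · apply Finset.prod_le_one
          · intro p hp
            have h1 := hbig p (mem_sdiff.1 hp).1
            have := gd_lt_one B p h1.1 h1.2
            linarith
          · intro p hp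
            have h1 := hbig p (mem_sdiff.1 hp).1
            have := gd_nonneg B p h1.1
            linarith
        · apply Finset.prod_nonneg
          intro p hp
          have h1 := hbig p (hsub hp)
          have := gd_lt_one B p h1.1 h1.2
          linarith
    _ ≤ _ := by
        rw [one_mul]
        apply Finset.prod_le_prod
        · intro p hp
          have h1 := hbig p (hsub hp)
          have := gd_lt_one B p h1.1 h1.2
          linarith
        · intro p hp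
          have h1 := hbig p (hsub hp)
          have := gg_le_gd B Q p h1.1
          linarith

end Pool.Agent.Y675.TC
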