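import Pool.Agent.Y675.TC.Fin2

/-!
Project TC (helper675): many squarefree values of the form with at most three prime factors.
-/

set_option autoImplicit false

namespace Pool.Agent.Y675.TC

open Finset Pool.Agent.W23.DC Pool.Agent.Y660.RP Filter

/-- the pair of a quadruple -/
def pp (i : ℕ × ℕ × ℕ × ℕ) : ℕ × ℕ := (i.1 + i.2.1, i.2.2.1 + i.2.2.2)

/-- the pair of variables of the form -/
def rs (Q : ℕ) (j : ℕ × ℕ) : ℕ × ℕ := (Q * j.1, 1 + Q * j.2)

lemma rs_inj {Q : ℕ} (hQ : 1 ≤ Q) : Function.Injective (rs Q) := by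
  intro i j h
  have h1 : Q * i.1 = Q * j.1 := congrArg Prod.fst h
  have h2 : 1 + Q * i.2 = 1 + Q * j.2 := congrArg Prod.snd h
  have h3 : Q * i.2 = Q * j.2 := by omega
  exact Prod.ext (Nat.eq_of_mul_eq_mul_left hQ h1) (Nat.eq_of_mul_eq_mul_left hQ h3)

lemma fiber_pp (M : ℕ) (j : ℕ × ℕ) (G : Finset (ℕ × ℕ × ℕ × ℕ)) (hG : G ⊆ Om M) :
    (G.filter (fun i => pp i = j)).card ≤ M ^ 2 := by
  have h : (G.filter (fun i => pp i = j)).card ≤ (range M ×ˢ range M).card := by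
    apply Finset.card_le_card_of_injOn (fun i => (i.1, i.2.2.1))
    · intro i hi
      have hi' := mem_filter.1 (mem_coe.1 hi)
      have h1 := hG hi'.1
      simp only [Om, mem_product, mem_range] at h1
      simp only [coe_product, Set.mem_prod, mem_coe, mem_range]
      exact ⟨h1.1, h1.2.2.1⟩
    · intro i hi i' hi' h
      have h1 := (mem_filter.1 (mem_coe.1 hi)).2
      have h2 := (mem_filter.1 (mem_coe.1 hi')).2
      have h3 : i.1 = i'.1 := (Prod.mk.inj h).1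
      have h4 : i.2.2.1 = i'.2.2.1 := (Prod.mk.inj h).2
      rw [← h2] at h1
      have h5 : i.1 + i.2.1 = i'.1 + i'.2.1 := congrArg Prod.fst h1
      have h6 : i.2.2.1 + i.2.2.2 = i'.2.2.1 + i'.2.2.2 := congrArg Prod.snd h1
      refine Prod.ext h3 (Prod.ext (by omega) (Prod.ext h4 (by omega)))
  rw [card_product, card_range] at h
  rwa [sq]

/-- the value at a pair -/
def wv (B Q : ℕ) (j : ℕ × ℕ) : ℕ := (FF B ((Q * j.1 : ℕ) : ℤ) ((1 + Q * j.2 : ℕ) : ℤ)).natAbs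

lemma vv_eq (B Q : ℕ) (i : ℕ × ℕ × ℕ × ℕ) : vv B Q i = wv B Q (pp i) := rfl

lemma wv_cast (B Q : ℕ) (j : ℕ × ℕ) : ((wv B Q j : ℕ) : ℤ) =
    FF B ((Q * j.1 : ℕ) : ℤ) ((1 + Q * j.2 : ℕ) : ℤ) := by
  unfold wv
  apply Int.natAbs_of_nonneg
  apply (FF_pos _ _ _).le
  push_cast
  positivity

open Classical in
theorem many2 (hL : S_LEV) (hM : S_MRS) (hP : S_PRD) (hN : S_NSQ) (B Q0 : ℕ) (hB : 1 ≤ B)
    (hQ0 : 1 ≤ Q0) : ∃ Q : ℕ, 1 ≤ Q ∧ Q0 ∣ Q ∧ ∃ c : ℝ, 0 < c ∧ ∃ M₀ : ℕ, ∀ M : ℕ, M₀ ≤ M →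
      ∃ V : Finset ℕ, c * (M : ℝ) ^ 2 / Real.log M ≤ (V.card : ℝ) ∧ ∀ v ∈ V,
        Squarefree v ∧ v.primeFactors.card ≤ 3 ∧
        v ≤ (1 + 6 * B + B ^ 2) * (1 + 2 * Q) ^ 4 * M ^ 4 ∧
        ∃ r s : ℕ, 1 ≤ r ∧ 1 ≤ s ∧ Q ∣ r ∧ s ≡ 1 [MOD Q] ∧ (v : ℤ) = FF B r s := by
  obtain ⟨Q, hQ1, hQ0Q, c, hc, M₁, h1⟩ := many hL hM hP B Q0 hB hQ0
  refine ⟨Q, hQ1, hQ0Q, c / 128, by positivity, ?_⟩
  obtain ⟨C, hC, hnsq⟩ := hN B hB (1 / 10) (by norm_num)
  set C' : ℝ := C * (1 + 2 * (Q : ℝ)) ^ (21 / 10 : ℝ) with hC'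
  have hC'0 : 0 < C' := by positivity
  have hev : ∀ᶠ M : ℕ in atTop, Real.log M ≤ c / (2 * (2 + C')) * (M : ℝ) ^ (15 / 100 : ℝ) := by
    have h := (isLittleO_log_rpow_atTop (show (0 : ℝ) < 15 / 100 by norm_num)).bound
      (show (0 : ℝ) < c / (2 * (2 + C')) by positivity)
    have h' := tendsto_natCast_atTop_atTop.eventually h
    filter_upwards [h'] with M hM
    have hl : 0 ≤ Real.log M := Real.log_natCast_nonneg M
    rw [Real.norm_of_nonneg hl, Real.norm_of_nonneg (by positivity)] at hM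
    exact hM
  obtain ⟨M₂, hM₂⟩ := eventually_atTop.1 hev
  refine ⟨max (max M₁ M₂) 3, fun M hMM => ?_⟩
  have hMM1 : M₁ ≤ M := ((le_max_left _ _).trans (le_max_left _ _)).trans hMM
  have hMM2 : M₂ ≤ M := ((le_max_right _ _).trans (le_max_left _ _)).trans hMM
  have hM3 : 3 ≤ M := (le_max_right _ _).trans hMM
  have hMr : (3 : ℝ) ≤ M := by exact_mod_cast hM3
  have hM0 : (0 : ℝ) < M := by linarith
  have hlM : 1 < Real.log M := by
    rw [Real.lt_log_iff_exp_lt hM0]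
    have := Real.exp_one_lt_d9
    linarith
  set G := (Om M).filter (fun i => (∀ p : ℕ, p.Prime → p ∣ vv B Q i → (M : ℝ) ^ (1 / 2 : ℝ) ≤ p) ∧
          (vv B Q i).primeFactors.card ≤ 3) with hG
  have hGcard := h1 M hMM1
  rw [← hG] at hGcard
  set Pm := G.image pp with hPm
  -- the pairs
  have hPcard : (G.card : ℝ) ≤ (M : ℝ) ^ 2 * (Pm.card : ℝ) := by
    have h2 := Finset.card_le_mul_card_image (s := G) (f := pp) (M ^ 2)
      (fun j _ => fiber_pp M j G (filter_subset _ _))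
    exact_mod_cast h2
  have hP1 : c * (M : ℝ) ^ 2 / Real.log M ≤ (Pm.card : ℝ) := by
    have h2 : c * (M : ℝ) ^ 4 / Real.log M ≤ (M : ℝ) ^ 2 * (Pm.card : ℝ) := hGcard.trans hPcard
    have h3 : c * (M : ℝ) ^ 4 / Real.log M = (M : ℝ) ^ 2 * (c * (M : ℝ) ^ 2 / Real.log M) := by ring
    rw [h3] at h2
    exact le_of_mul_le_mul_left h2 (by positivity)
  have hPmem : ∀ j ∈ Pm, j.1 < 2 * M ∧ j.2 < 2 * M ∧
      (∀ p : ℕ, p.Prime → p ∣ wv B Q j → (M : ℝ) ^ (1 / 2 : ℝ) ≤ p) ∧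
      (wv B Q j).primeFactors.card ≤ 3 ∧
      wv B Q j ≤ (1 + 6 * B + B ^ 2) * (1 + 2 * Q) ^ 4 * M ^ 4 := by
    intro j hj
    rw [hPm, mem_image] at hj
    obtain ⟨i, hi, rfl⟩ := hj
    rw [hG, mem_filter] at hi
    have h3 := hi.1
    simp only [Om, mem_product, mem_range] at h3
    refine ⟨by unfold pp; simp only; omega, by unfold pp; simp only; omega, ?_, ?_, ?_⟩
    · rw [← vv_eq]; exact hi.2.1
    · rw [← vv_eq]; exact hi.2.2
    · rw [← vv_eq]; exact vv_le B Q M i hi.1 (by omega)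
  -- the bad pairs
  set P0 := Pm.filter (fun j => 1 ≤ j.1 ∧ Squarefree (wv B Q j)) with hP0
  set B1 := Pm.filter (fun j => j.1 = 0) with hB1
  set B2 := Pm.filter (fun j => 1 ≤ j.1 ∧ ¬ Squarefree (wv B Q j)) with hB2
  have hsplit : Pm.card ≤ P0.card + B1.card + B2.card := by
    have : Pm ⊆ (P0 ∪ B1) ∪ B2 := by
      intro j hj
      simp only [mem_union, hP0, hB1, hB2, mem_filter]
      rcases Nat.eq_zero_or_pos j.1 with h | h
      · exact Or.inl (Or.inr ⟨hj, h⟩)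
      · by_cases h' : Squarefree (wv B Q j)
        · exact Or.inl (Or.inl ⟨hj, h, h'⟩)
        · exact Or.inr ⟨hj, h, h'⟩
    calc Pm.card ≤ ((P0 ∪ B1) ∪ B2).card := card_le_card this
      _ ≤ (P0 ∪ B1).card + B2.card := card_union_le _ _
      _ ≤ P0.card + B1.card + B2.card := by
        have := card_union_le P0 B1
        omega
  have hB1card : B1.card ≤ 2 * M := by
    have : B1.card ≤ (range (2 * M)).card := by
      apply Finset.card_le_card_of_injOn (fun j => j.2)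
      · intro j hj
        have hj' := mem_filter.1 (mem_coe.1 hj)
        exact mem_coe.2 (mem_range.2 (hPmem j hj'.1).2.1)
      · intro j hj j' hj' h
        have h2 := (mem_filter.1 (mem_coe.1 hj)).2
        have h3 := (mem_filter.1 (mem_coe.1 hj')).2
        exact Prod.ext (by rw [h2, h3]) h
    rwa [card_range] at this
  set Y : ℕ := (1 + 2 * Q) * M with hY
  have hY1 : 1 ≤ Y := by rw [hY]; nlinarith
  have hB2card : (B2.card : ℝ) ≤ C' * (M : ℝ) ^ (185 / 100 : ℝ) := by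
    have hz1 : (1 : ℝ) ≤ (M : ℝ) ^ (1 / 2 : ℝ) := Real.one_le_rpow (by linarith) (by norm_num)
    have hzY : (M : ℝ) ^ (1 / 2 : ℝ) ≤ Y := by
      calc (M : ℝ) ^ (1 / 2 : ℝ) ≤ (M : ℝ) ^ (1 : ℝ) :=
            Real.rpow_le_rpow_of_exponent_le (by linarith) (by norm_num)
        _ = M := Real.rpow_one _
        _ ≤ Y := by
          have : M ≤ Y := by rw [hY]; nlinarith
          exact_mod_cast this
    have h2 := hnsq Y ((M : ℝ) ^ (1 / 2 : ℝ)) hY1 hz1 hzY
    have h3 : B2.card ≤ ((((Icc 1 Y) ×ˢ (Icc 1 Y)).filter (fun i : ℕ × ℕ =>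
        (∀ p : ℕ, p.Prime → (p : ℤ) ∣ FF B i.1 i.2 → (M : ℝ) ^ (1 / 2 : ℝ) ≤ p) ∧
          ¬ Squarefree (FF B i.1 i.2))).card) := by
      apply Finset.card_le_card_of_injOn (rs Q)
      · intro j hj
        have hj' := mem_filter.1 (mem_coe.1 hj)
        obtain ⟨g1, g2, g3, g4, g5⟩ := hPmem j hj'.1
        rw [mem_coe, mem_filter]
        refine ⟨?_, ?_, ?_⟩
        · rw [mem_product, mem_Icc, mem_Icc]
          unfold rs
          refine ⟨⟨Nat.mul_pos hQ1 hj'.2.1, ?_⟩, ⟨by simp only; omega, ?_⟩⟩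
          · simp only
            rw [hY]
            nlinarith
          · simp only
            rw [hY]
            nlinarith
        · intro p hp hpd
          apply g3 p hp
          have : (p : ℤ) ∣ ((wv B Q j : ℕ) : ℤ) := by
            rw [wv_cast]
            exact hpd
          exact_mod_cast this
        · intro hsq
          apply hj'.2.2
          unfold wv
          exact Int.squarefree_natAbs.2 hsq
      · intro j _ j' _ h
        exact rs_inj hQ1 h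
    have h4 : (B2.card : ℝ) ≤ C * (Y : ℝ) ^ (2 + 1 / 10 : ℝ) * ((M : ℝ) ^ (1 / 2 : ℝ)) ^ (-(1 / 2 : ℝ)) :=
      le_trans (by exact_mod_cast h3) h2
    refine h4.trans (le_of_eq ?_)
    rw [hC', ← Real.rpow_mul hM0.le]
    have e1 : (Y : ℝ) = (1 + 2 * (Q : ℝ)) * M := by rw [hY]; push_cast; ring
    have e2 : (2 + 1 / 10 : ℝ) = 21 / 10 := by norm_num
    rw [e1, e2, Real.mul_rpow (by positivity) hM0.le]
    have e3 : (M : ℝ) ^ (185 / 100 : ℝ) = (M : ℝ) ^ (21 / 10 : ℝ) * (M : ℝ) ^ (1 / 2 * -(1 / 2) : ℝ) := by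
      rw [← Real.rpow_add hM0]
      norm_num
    rw [e3]
    ring
  have hP0card : c / 2 * (M : ℝ) ^ 2 / Real.log M ≤ (P0.card : ℝ) := by
    have h2 : (Pm.card : ℝ) ≤ P0.card + B1.card + B2.card := by exact_mod_cast hsplit
    have h3 : (B1.card : ℝ) ≤ 2 * M := by exact_mod_cast hB1card
    have h4 : (M : ℝ) ≤ (M : ℝ) ^ (185 / 100 : ℝ) := by
      calc (M : ℝ) = (M : ℝ) ^ (1 : ℝ) := (Real.rpow_one _).symm
        _ ≤ _ := Real.rpow_le_rpow_of_exponent_le (by linarith) (by norm_num)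
    have h5 := hM₂ M hMM2
    have h6 : (2 + C') * (M : ℝ) ^ (185 / 100 : ℝ) ≤ c / 2 * (M : ℝ) ^ 2 / Real.log M := by
      rw [le_div_iff₀ (by linarith)]
      have e3 : (M : ℝ) ^ (2 : ℕ) = (M : ℝ) ^ (185 / 100 : ℝ) * (M : ℝ) ^ (15 / 100 : ℝ) := by
        rw [← Real.rpow_add hM0, ← Real.rpow_natCast]
        norm_num
      calc (2 + C') * (M : ℝ) ^ (185 / 100 : ℝ) * Real.log M ≤
          (2 + C') * (M : ℝ) ^ (185 / 100 : ℝ) * (c / (2 * (2 + C')) * (M : ℝ) ^ (15 / 100 : ℝ)) := by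
            gcongr
        _ = c / 2 * ((M : ℝ) ^ (185 / 100 : ℝ) * (M : ℝ) ^ (15 / 100 : ℝ)) := by
            field_simp
        _ = _ := by rw [e3]
    have h7 : c * (M : ℝ) ^ 2 / Real.log M = c / 2 * (M : ℝ) ^ 2 / Real.log M +
        c / 2 * (M : ℝ) ^ 2 / Real.log M := by ring
    linarith
  -- the values
  refine ⟨P0.image (wv B Q), ?_, ?_⟩
  · have hfib : ∀ v ∈ P0.image (wv B Q), (P0.filter (fun j => wv B Q j = v)).card ≤ 64 := by
      intro v hv
      rw [mem_image] at hv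
      obtain ⟨j0, hj0, hj0v⟩ := hv
      have hj0' := mem_filter.1 hj0
      have hsq : Squarefree v := by rw [← hj0v]; exact hj0'.2.2
      have hom : v.primeFactors.card ≤ 3 := by
        rw [← hj0v]
        exact (hPmem j0 hj0'.1).2.2.2.1
      have h2 := t_MUL B (v : ℤ) hB (by
          rw [← Int.squarefree_natAbs, Int.natAbs_natCast]
          exact hsq) ((P0.filter (fun j => wv B Q j = v)).image (rs Q)) (by
        intro i hi
        rw [mem_image] at hi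
        obtain ⟨j, hj, rfl⟩ := hi
        rw [mem_filter] at hj
        have hj' := mem_filter.1 hj.1
        refine ⟨Nat.mul_pos hQ1 hj'.2.1, by unfold rs; simp only; omega, ?_⟩
        rw [← hj.2, wv_cast]
        rfl)
      rw [Finset.card_image_of_injective _ (rs_inj hQ1), Int.natAbs_natCast] at h2
      refine h2.trans ?_
      calc 4 ^ v.primeFactors.card ≤ 4 ^ 3 := Nat.pow_le_pow_right (by norm_num) hom
        _ = 64 := by norm_num
    have h2 := Finset.card_le_mul_card_image (s := P0) (f := wv B Q) 64 hfib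
    have h3 : (P0.card : ℝ) ≤ 64 * ((P0.image (wv B Q)).card : ℝ) := by exact_mod_cast h2
    have h4 : c / 128 * (M : ℝ) ^ 2 / Real.log M = c / 2 * (M : ℝ) ^ 2 / Real.log M / 64 := by ring
    rw [h4]
    linarith
  · intro v hv
    rw [mem_image] at hv
    obtain ⟨j, hj, rfl⟩ := hv
    have hj' := mem_filter.1 hj
    obtain ⟨g1, g2, g3, g4, g5⟩ := hPmem j hj'.1
    refine ⟨hj'.2.2, g4, g5, Q * j.1, 1 + Q * j.2, Nat.mul_pos hQ1 hj'.2.1, by omega,
      Dvd.intro _ rfl, ?_, wv_cast B Q j⟩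
    have h2 : Q * j.2 ≡ 0 [MOD Q] := (Nat.modEq_zero_iff_dvd).2 (Dvd.intro _ rfl)
    simpa using (Nat.ModEq.refl 1).add h2

end Pool.Agent.Y675.TC
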