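import Pool.Agent.Y675.TC.Fin3

/-!
Project TC (helper675): congruent numbers with few prime factors in residue classes.
-/

set_option autoImplicit false

namespace Pool.Agent.Y675.TC

open Finset Filter

/-- `d` is the area of a right triangle with rational sides -/
def Cong (d : ℕ) : Prop :=
  ∃ a b c : ℚ, 0 < a ∧ 0 < b ∧ 0 < c ∧ a ^ 2 + b ^ 2 = c ^ 2 ∧ a * b / 2 = (d : ℚ)

theorem cong_of (B r s v : ℕ) (hB : 1 ≤ B) (hr : 1 ≤ r) (hs : 1 ≤ s) (hne : B * r ^ 2 ≠ s ^ 2)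
    (hv : (v : ℤ) = FF B r s) : Cong (B * v) := by
  have hB' : (0 : ℚ) < B := by exact_mod_cast hB
  have hr' : (0 : ℚ) < r := by exact_mod_cast hr
  have hs' : (0 : ℚ) < s := by exact_mod_cast hs
  have hne' : (B : ℚ) * r ^ 2 - s ^ 2 ≠ 0 := by
    intro h
    apply hne
    have : (B : ℚ) * r ^ 2 = s ^ 2 := by linarith
    exact_mod_cast this
  have hv' : (v : ℚ) = (s : ℚ) ^ 4 + 6 * B * r ^ 2 * s ^ 2 + (B : ℚ) ^ 2 * r ^ 4 := by
    have h := congrArg (fun t : ℤ => (t : ℚ)) hv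
    simp only [FF] at h
    push_cast at h
    exact h
  set u : ℚ := B * r ^ 2 + s ^ 2 with hu
  set x : ℚ := 2 * r * s with hx
  set w : ℚ := |(B : ℚ) * r ^ 2 - s ^ 2| with hw
  have hu0 : 0 < u := by positivity
  have hx0 : 0 < x := by positivity
  have hw0 : 0 < w := abs_pos.2 hne'
  have hw2 : w ^ 2 = u ^ 2 - B * x ^ 2 := by
    rw [hw, sq_abs, hu, hx]
    ring
  have hsum : u ^ 2 + B * x ^ 2 = v := by
    rw [hv', hu, hx]
    ring
  have hv0 : (0 : ℚ) < v := by rw [← hsum]; positivity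
  refine ⟨(u ^ 2 + B * x ^ 2) * w ^ 2 / (u * x * w), 2 * u ^ 2 * (B * x ^ 2) / (u * x * w),
    ((u ^ 2) ^ 2 + (B * x ^ 2) ^ 2) / (u * x * w), by positivity, by positivity, by positivity, ?_, ?_⟩
  · rw [hw2]
    field_simp
    ring
  · rw [hsum]
    push_cast
    field_simp

lemma FF_eq1 (B : ℕ) (r s : ℤ) : FF B r s = (s ^ 2 + 3 * B * r ^ 2) ^ 2 - 2 * (2 * B * r ^ 2) ^ 2 := by
  unfold FF; ring

lemma FF_eq2 (B : ℕ) (r s : ℤ) : FF B r s = (B * r ^ 2 + s ^ 2) ^ 2 + B * (2 * r * s) ^ 2 := by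
  unfold FF; ring

/-- the prime factors of a squarefree odd value -/
theorem primes_of {B r s v p : ℕ} (hv : (v : ℤ) = FF B r s) (hsq : Squarefree v) (hp : p.Prime)
    (hpv : p ∣ v) (hp2 : p ≠ 2) (hpB : ¬ p ∣ B) :
    (p % 8 = 1 ∨ p % 8 = 7) ∧ IsSquare (((-(B : ℤ) : ℤ)) : ZMod p) := by
  haveI : Fact p.Prime := ⟨hp⟩
  have hpz : Prime (p : ℤ) := Nat.prime_iff_prime_int.1 hp
  have hpF : (p : ℤ) ∣ FF B r s := by rw [← hv]; exact_mod_cast hpv
  have hnot : ¬ ((p : ℤ) ∣ (r : ℤ) ∧ (p : ℤ) ∣ (s : ℤ)) := by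
    rintro ⟨⟨a, ha⟩, ⟨b, hb⟩⟩
    have h6 : (p : ℤ) * p ∣ (v : ℤ) := by
      rw [hv, ha, hb, FF_hom]
      exact ⟨(p : ℤ) ^ 2 * FF B a b, by ring⟩
    have h7 : p * p ∣ v := by exact_mod_cast h6
    exact hp.one_lt.ne' (Nat.isUnit_iff.1 (hsq p h7))
  have hr : ¬ (p : ℤ) ∣ (r : ℤ) := by
    intro h
    apply hnot
    refine ⟨h, ?_⟩
    have e : (s : ℤ) ^ 4 = FF B r s - (r : ℤ) * (6 * B * r * (s : ℤ) ^ 2 + (B : ℤ) ^ 2 * r ^ 3) := by
      unfold FF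
      ring
    have h4 : (p : ℤ) ∣ (s : ℤ) ^ 4 := by
      rw [e]
      exact dvd_sub hpF (Dvd.dvd.mul_right h _)
    exact hpz.dvd_of_dvd_pow h4
  have hs : ¬ (p : ℤ) ∣ (s : ℤ) := by
    intro h
    have e : (B : ℤ) ^ 2 * (r : ℤ) ^ 4 = FF B r s - (s : ℤ) * ((s : ℤ) ^ 3 + 6 * B * (r : ℤ) ^ 2 * s) := by
      unfold FF
      ring
    have h4 : (p : ℤ) ∣ (B : ℤ) ^ 2 * (r : ℤ) ^ 4 := by
      rw [e]
      exact dvd_sub hpF (Dvd.dvd.mul_right h _)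
    rcases hpz.dvd_or_dvd h4 with h5 | h5
    · have h6 := hpz.dvd_of_dvd_pow h5
      exact hpB (by exact_mod_cast h6)
    · exact hr (hpz.dvd_of_dvd_pow h5)
  have hrz : (r : ZMod p) ≠ 0 := by
    intro h
    apply hr
    have h' : ((r : ℤ) : ZMod p) = 0 := by exact_mod_cast h
    exact (ZMod.intCast_zmod_eq_zero_iff_dvd _ _).1 h'
  have hsz : (s : ZMod p) ≠ 0 := by
    intro h
    apply hs
    have h' : ((s : ℤ) : ZMod p) = 0 := by exact_mod_cast h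
    exact (ZMod.intCast_zmod_eq_zero_iff_dvd _ _).1 h'
  have hBz : (B : ZMod p) ≠ 0 := by
    intro h
    exact hpB ((ZMod.natCast_eq_zero_iff _ _).1 h)
  have h2z : (2 : ZMod p) ≠ 0 := by
    intro h
    have h' : ((2 : ℕ) : ZMod p) = 0 := by exact_mod_cast h
    have h3 := (ZMod.natCast_eq_zero_iff _ _).1 h'
    exact hp2 ((Nat.prime_dvd_prime_iff_eq hp Nat.prime_two).1 h3)
  have hF0 : ((FF B r s : ℤ) : ZMod p) = 0 := (ZMod.intCast_zmod_eq_zero_iff_dvd _ _).2 hpF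
  constructor
  · rw [← ZMod.exists_sq_eq_two_iff hp2]
    have h1 := hF0
    rw [FF_eq1] at h1
    push_cast at h1
    refine ⟨((s : ZMod p) ^ 2 + 3 * B * (r : ZMod p) ^ 2) / (2 * B * (r : ZMod p) ^ 2), ?_⟩
    have h3 : (2 * (B : ZMod p) * (r : ZMod p) ^ 2) ≠ 0 :=
      mul_ne_zero (mul_ne_zero h2z hBz) (pow_ne_zero _ hrz)
    rw [div_mul_div_comm, eq_div_iff (mul_ne_zero h3 h3)]
    linear_combination -h1
  · have h1 := hF0
    rw [FF_eq2] at h1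
    push_cast at h1
    refine ⟨((B : ZMod p) * (r : ZMod p) ^ 2 + (s : ZMod p) ^ 2) / (2 * (r : ZMod p) * s), ?_⟩
    have h3 : (2 * (r : ZMod p) * (s : ZMod p)) ≠ 0 := mul_ne_zero (mul_ne_zero h2z hrz) hsz
    push_cast
    rw [div_mul_div_comm, eq_div_iff (mul_ne_zero h3 h3)]
    linear_combination -h1

/-- the main theorem -/
theorem main (hL : S_LEV) (hM : S_MRS) (hP : S_PRD) (hN : S_NSQ) (B m : ℕ) (hB : Squarefree B)
    (hm : 1 ≤ m) : ∃ c X₀ : ℝ, 0 < c ∧ ∀ X : ℝ, X₀ ≤ X →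
      c * Real.sqrt X / Real.log X ≤ (({d : ℕ | (d : ℝ) ≤ X ∧ d ≡ B [MOD m] ∧ B ∣ d ∧ Squarefree d ∧
        Cong d ∧ (d / B).primeFactors.card ≤ 3 ∧ (d / B).Coprime (2 * B * m) ∧
        ∀ p : ℕ, p.Prime → p ∣ d / B → (p % 8 = 1 ∨ p % 8 = 7) ∧
          IsSquare (((-(B : ℤ) : ℤ)) : ZMod p)}.ncard : ℕ) : ℝ) := by
  classical
  have hB1 : 1 ≤ B := Nat.pos_of_ne_zero hB.ne_zero
  obtain ⟨Q, hQ1, hQ0, c, hc, M₀, h⟩ := many2 hL hM hP hN B (2 * B * m) hB1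
    (Nat.mul_pos (Nat.mul_pos two_pos hB1) hm)
  set K : ℕ := B * ((1 + 6 * B + B ^ 2) * (1 + 2 * Q) ^ 4) with hK
  have hK1 : 1 ≤ K := Nat.one_le_iff_ne_zero.2 (by positivity)
  have hKr : (1 : ℝ) ≤ K := by exact_mod_cast hK1
  refine ⟨c / (4 * Real.sqrt K), K * (2 * (M₀ : ℝ) + 4) ^ 4, by positivity, fun X hX => ?_⟩
  have hX1 : 256 ≤ X := by
    have h1 : (4 : ℝ) ^ 4 ≤ (2 * (M₀ : ℝ) + 4) ^ 4 :=
      pow_le_pow_left₀ (by norm_num) (by linarith [(Nat.cast_nonneg M₀ : (0 : ℝ) ≤ M₀)]) 4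
    have h2 : (1 : ℝ) * (4 : ℝ) ^ 4 ≤ K * (2 * (M₀ : ℝ) + 4) ^ 4 := by gcongr
    linarith
  have hX0 : 0 < X := by linarith
  set T : ℝ := Real.sqrt (Real.sqrt (X / K)) with hT
  have hT0 : 0 ≤ T := Real.sqrt_nonneg _
  have hT4 : T ^ 4 = X / K := by
    have e : T ^ 4 = (T ^ 2) ^ 2 := by ring
    rw [e, hT, Real.sq_sqrt (Real.sqrt_nonneg _), Real.sq_sqrt (by positivity)]
  have hTM : 2 * (M₀ : ℝ) + 4 ≤ T := by
    have h1 : (2 * (M₀ : ℝ) + 4) ^ 4 ≤ T ^ 4 := by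
      rw [hT4, le_div_iff₀ (by linarith)]
      linarith
    exact le_of_pow_le_pow_left₀ (by norm_num) hT0 h1
  set M : ℕ := ⌊T⌋₊ with hMd
  have hMT : (M : ℝ) ≤ T := Nat.floor_le hT0
  have hTM1 : T < M + 1 := Nat.lt_floor_add_one T
  have hM₀M : M₀ ≤ M := by
    have : (M₀ : ℝ) ≤ T := by linarith [(Nat.cast_nonneg M₀ : (0 : ℝ) ≤ M₀)]
    exact Nat.le_floor this
  have hM3 : 3 ≤ M := by
    have : ((3 : ℕ) : ℝ) ≤ T := by
      push_cast
      linarith [(Nat.cast_nonneg M₀ : (0 : ℝ) ≤ M₀)]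
    exact Nat.le_floor this
  have hMr : (3 : ℝ) ≤ M := by exact_mod_cast hM3
  obtain ⟨V, hV, hVm⟩ := h M hM₀M
  have hKM : ((K * M ^ 4 : ℕ) : ℝ) ≤ X := by
    push_cast
    have h1 : (M : ℝ) ^ 4 ≤ X / K := by
      rw [← hT4]
      exact pow_le_pow_left₀ (by linarith) hMT 4
    rw [le_div_iff₀ (by linarith)] at h1
    linarith
  -- the values
  have hsub : ((V.image (fun v => B * v) : Finset ℕ) : Set ℕ) ⊆ {d : ℕ | (d : ℝ) ≤ X ∧ d ≡ B [MOD m] ∧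
      B ∣ d ∧ Squarefree d ∧ Cong d ∧ (d / B).primeFactors.card ≤ 3 ∧ (d / B).Coprime (2 * B * m) ∧
        ∀ p : ℕ, p.Prime → p ∣ d / B → (p % 8 = 1 ∨ p % 8 = 7) ∧
          IsSquare (((-(B : ℤ) : ℤ)) : ZMod p)} := by
    intro d hd
    rw [mem_coe, mem_image] at hd
    obtain ⟨v, hv, rfl⟩ := hd
    obtain ⟨g1, g2, g3, r, s, hr, hs, hQr, hsQ, hvF⟩ := hVm v hv
    have hv1 : v ≡ 1 [MOD Q] := by
      have e1 : (r : ℤ) ≡ 0 [ZMOD Q] := (Int.modEq_zero_iff_dvd).2 (by exact_mod_cast hQr)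
      have e2 : (s : ℤ) ≡ 1 [ZMOD Q] := by
        have := (Int.natCast_modEq_iff).2 hsQ
        simpa using this
      have e3 := FF_modEq (B := B) e1 e2
      have e4 : FF B 0 1 = 1 := by unfold FF; ring
      rw [e4, ← hvF] at e3
      exact (Int.natCast_modEq_iff).1 (by simpa using e3)
    have hcop : v.Coprime (2 * B * m) := by
      have h1 : v.Coprime Q := by
        rw [Nat.Coprime, Nat.ModEq.gcd_eq hv1]
        simp
      exact h1.coprime_dvd_right hQ0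
    have hcopB : v.Coprime B := hcop.coprime_dvd_right ⟨2 * m, by ring⟩
    have hcop2 : v.Coprime 2 := hcop.coprime_dvd_right ⟨B * m, by ring⟩
    have hdiv : B * v / B = v := Nat.mul_div_cancel_left v hB1
    have hne : B * r ^ 2 ≠ s ^ 2 := by
      intro he
      have h1 : Q ∣ s ^ 2 := by
        rw [← he]
        exact (hQr.mul_left (B * r)).trans (by
          rw [show B * r ^ 2 = B * r * r by ring])
      have h2 : s.Coprime Q := by
        rw [Nat.Coprime, Nat.ModEq.gcd_eq hsQ]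
        simp
      have h3 : Q ∣ 1 := (h2.pow_left 2).symm.dvd_of_dvd_mul_left (by simpa using h1)
      have h4 : 2 ∣ 1 := ((Dvd.intro (B * m) (by ring)).trans hQ0).trans h3
      norm_num at h4
    simp only [Set.mem_setOf_eq]
    rw [hdiv]
    refine ⟨?_, ?_, Dvd.intro _ rfl, ?_, cong_of B r s v hB1 hr hs hne hvF, g2, hcop, ?_⟩
    · refine le_trans ?_ hKM
      have : B * v ≤ K * M ^ 4 := by
        rw [hK]
        calc B * v ≤ B * ((1 + 6 * B + B ^ 2) * (1 + 2 * Q) ^ 4 * M ^ 4) := Nat.mul_le_mul_left _ g3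
          _ = _ := by ring
      exact_mod_cast this
    · have h1 : v ≡ 1 [MOD m] := hv1.of_dvd ((Dvd.intro_left (2 * B) rfl).trans hQ0)
      simpa using (Nat.ModEq.refl B).mul h1
    · exact (Nat.squarefree_mul hcopB.symm).2 ⟨hB, g1⟩
    · intro p hp hpv
      apply primes_of hvF g1 hp hpv
      · rintro rfl
        have := Nat.dvd_gcd hpv (dvd_refl 2)
        rw [hcop2] at this
        norm_num at this
      · intro hpB
        have := Nat.dvd_gcd hpv hpB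
        rw [hcopB] at this
        exact hp.one_lt.ne' (Nat.dvd_one.1 this)
  have hfin : {d : ℕ | (d : ℝ) ≤ X ∧ d ≡ B [MOD m] ∧ B ∣ d ∧ Squarefree d ∧
        Cong d ∧ (d / B).primeFactors.card ≤ 3 ∧ (d / B).Coprime (2 * B * m) ∧
        ∀ p : ℕ, p.Prime → p ∣ d / B → (p % 8 = 1 ∨ p % 8 = 7) ∧
          IsSquare (((-(B : ℤ) : ℤ)) : ZMod p)}.Finite := by
    apply (Set.finite_Iic ⌊X⌋₊).subset
    intro d hd
    exact Nat.le_floor hd.1
  have hcard : (V.card : ℝ) ≤ (({d : ℕ | (d : ℝ) ≤ X ∧ d ≡ B [MOD m] ∧ B ∣ d ∧ Squarefree d ∧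
        Cong d ∧ (d / B).primeFactors.card ≤ 3 ∧ (d / B).Coprime (2 * B * m) ∧
        ∀ p : ℕ, p.Prime → p ∣ d / B → (p % 8 = 1 ∨ p % 8 = 7) ∧
          IsSquare (((-(B : ℤ) : ℤ)) : ZMod p)}.ncard : ℕ) : ℝ) := by
    have h1 := Set.ncard_le_ncard hsub hfin
    rw [Set.ncard_coe_finset, Finset.card_image_of_injective _ (fun a b hab =>
      Nat.eq_of_mul_eq_mul_left hB1 hab)] at h1
    exact_mod_cast h1
  refine le_trans ?_ (hV.trans hcard)
  -- the size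
  have hlogM : 0 < Real.log M := Real.log_pos (by linarith)
  have hlogX : Real.log M ≤ Real.log X := by
    apply Real.log_le_log (by linarith)
    have h1 : (M : ℝ) ≤ (M : ℝ) ^ 4 := by
      calc (M : ℝ) = (M : ℝ) ^ 1 := (pow_one _).symm
        _ ≤ (M : ℝ) ^ 4 := pow_le_pow_right₀ (by linarith) (by norm_num)
    have h2 : (M : ℝ) ^ 4 ≤ K * (M : ℝ) ^ 4 := by nlinarith [pow_pos (by linarith : (0 : ℝ) < M) 4]
    push_cast at hKM
    linarith
  have hM2 : Real.sqrt X / Real.sqrt K / 4 ≤ (M : ℝ) ^ 2 := by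
    have h1 : T ≤ 2 * M := by linarith
    have h2 : T ^ 2 = Real.sqrt X / Real.sqrt K := by
      rw [hT, Real.sq_sqrt (Real.sqrt_nonneg _), Real.sqrt_div hX0.le]
    rw [← h2]
    nlinarith
  calc c / (4 * Real.sqrt K) * Real.sqrt X / Real.log X
      = c * (Real.sqrt X / Real.sqrt K / 4) / Real.log X := by
        have : Real.sqrt K ≠ 0 := (Real.sqrt_pos.2 (by linarith)).ne'
        field_simp
    _ ≤ c * (M : ℝ) ^ 2 / Real.log M := by
        gcongr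

end Pool.Agent.Y675.TC
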