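import Pool.Agent.Y675.TC.Fin4
import Pool.Agent.Y705.TC.Exp
import Pool.Agent.Y333.TC.Lev
import Pool.Agent.Y421.TC.NSQ
import Pool.Agent.Y655.TC.Mrs

/-!
Project TC (helper675): the unconditional theorem and all residue classes.
-/

set_option autoImplicit false

namespace Pool.Agent.Y675.TC

open Finset Filter

/-- congruent multiples of `B` in the class of `B` modulo `m` -/
theorem main' (B m : ℕ) (hB : Squarefree B) (hm : 1 ≤ m) : ∃ c X₀ : ℝ, 0 < c ∧ ∀ X : ℝ, X₀ ≤ X →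
      c * Real.sqrt X / Real.log X ≤ (({d : ℕ | (d : ℝ) ≤ X ∧ d ≡ B [MOD m] ∧ B ∣ d ∧ Squarefree d ∧
        Cong d ∧ (d / B).primeFactors.card ≤ 3 ∧ (d / B).Coprime (2 * B * m) ∧
        ∀ p : ℕ, p.Prime → p ∣ d / B → (p % 8 = 1 ∨ p % 8 = 7) ∧
          IsSquare (((-(B : ℤ) : ℤ)) : ZMod p)}.ncard : ℕ) : ℝ) :=
  main (Pool.Agent.Y333.TC.t Pool.Agent.Y705.TC.t) Pool.Agent.Y655.TC.tM Pool.Agent.Y655.TC.tP
    Pool.Agent.Y421.TC.t B m hB hm

/-- a squarefree representative of a residue class with few prime factors -/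
theorem rep (a m : ℕ) (hm : 1 ≤ m) (hg : Squarefree (Nat.gcd a m)) : ∃ q : ℕ, q.Prime ∧ 2 < q ∧
    Squarefree (Nat.gcd a m * q) ∧ Nat.gcd a m * q ≡ a [MOD m] ∧
    (Nat.gcd a m * q).primeFactors.card ≤ (Nat.gcd a m).primeFactors.card + 1 := by
  set g := Nat.gcd a m with hgd
  have hg0 : 0 < g := Nat.gcd_pos_of_pos_right a hm
  have hga : g ∣ a := Nat.gcd_dvd_left a m
  have hgm : g ∣ m := Nat.gcd_dvd_right a m
  have hm' : 0 < m / g := Nat.div_pos (Nat.le_of_dvd hm hgm) hg0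
  haveI : NeZero (m / g) := ⟨hm'.ne'⟩
  have hcop : (a / g).Coprime (m / g) := Nat.coprime_div_gcd_div_gcd hg0
  have hu : IsUnit ((a / g : ℕ) : ZMod (m / g)) := (ZMod.isUnit_iff_coprime _ _).2 hcop
  obtain ⟨q, hq1, hqp, hq2⟩ := Nat.forall_exists_prime_gt_and_eq_mod hu (m + 2)
  have hqg : Nat.Coprime g q := by
    refine ((hqp.coprime_iff_not_dvd).2 ?_).symm
    intro h
    have h1 := Nat.le_of_dvd hg0 h
    have h2 := Nat.le_of_dvd hm hgm
    omega
  refine ⟨q, hqp, by omega, ?_, ?_, ?_⟩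
  · exact (Nat.squarefree_mul hqg).2 ⟨hg, hqp.prime.squarefree⟩
  · have h1 : q ≡ a / g [MOD m / g] := (ZMod.natCast_eq_natCast_iff _ _ _).1 hq2
    have h2 := h1.mul_left' g
    rwa [Nat.mul_div_cancel' hga, Nat.mul_div_cancel' hgm] at h2
  · rw [Nat.primeFactors_mul hg0.ne' hqp.ne_zero, hqp.primeFactors]
    exact (card_union_le _ _).trans (by rw [card_singleton])

/-- the number of prime factors -/
lemma omega_bound {B d k : ℕ} (hB : B ∣ d) (hd : d ≠ 0) (hBk : B.primeFactors.card ≤ k + 1)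
    (h : (d / B).primeFactors.card ≤ 3) : d.primeFactors.card ≤ k + 4 := by
  have hB0 : B ≠ 0 := by
    rintro rfl
    exact hd (Nat.eq_zero_of_zero_dvd hB)
  have h1 : d = B * (d / B) := (Nat.mul_div_cancel' hB).symm
  have h2 : d / B ≠ 0 := by
    intro h0
    rw [h0, mul_zero] at h1
    exact hd h1
  rw [h1, Nat.primeFactors_mul hB0 h2]
  have := card_union_le B.primeFactors (d / B).primeFactors
  omega

end Pool.Agent.Y675.TC
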